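import Pool.Agent.H74.IB.NoInf

/-!
# The infrared bound of percolation as an inequality for oriented boundaries of clusters

For bond percolation on `ℤ^d` at a parameter `p` of finite susceptibility, let
`A = sup_k (1 - D̂(k)) τ̂_p(k)`, and let `Φ` be the supremum, over the boxes and over the orientations of
their edges, of the mean of the sum over the clusters `𝒞` of `(out 𝒞 - in 𝒞)²` per edge of the box, where
`out 𝒞` and `in 𝒞` are the numbers of the edges of the box which are oriented out of `𝒞` and into `𝒞`.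
Then `A ≤ Φ ≤ 2 d A`, also for the supremum over the plane wave orientations only, and the infrared bound
at a wave vector `k` needs only the orientations of the plane wave of wave vector `k`. The infrared bound
gives the inequality at the critical point; the inequality at one parameter without infinite cluster gives
quadratic growth of the clusters for `d ≥ 3`, and the infrared bound in the mean over the cubes around the
origin below this parameter. The average over all the orientations, instead of the
supremum, is at most `2` at every `p`.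
-/

set_option autoImplicit false

open MeasureTheory Filter Topology

namespace Pool.Agent.Results.MP_54f242_pr.ClusterImbalance

variable {d : ℕ}

/-- the edges of `ℤ^d`: `(x, i)` is the edge between `x` and `x + e_i` -/
abbrev Edge (d : ℕ) := (Fin d → ℤ) × Fin d

/-- the upper end `x + e_i` of the edge `(x, i)` -/
def upperEnd (e : Edge d) : Fin d → ℤ := e.1 + Pi.single e.2 1

/-- the open subgraph of a configuration -/
def openGraph (ω : Edge d → Bool) : SimpleGraph (Fin d → ℤ) :=
  SimpleGraph.fromRel (fun a b : Fin d → ℤ => ∃ i : Fin d, b = a + Pi.single i (1 : ℤ) ∧ ω (a, i) = true)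

/-- bond percolation on `ℤ^d` with parameter `p` -/
noncomputable def law (d : ℕ) (p : NNReal) (hp : p ≤ 1) : Measure (Edge d → Bool) :=
  Measure.infinitePi (fun _ : Edge d => (PMF.bernoulli p hp).toMeasure)

/-- the two-point function `τ_p(x)` -/
noncomputable def tau (d : ℕ) (p : NNReal) (hp : p ≤ 1) (x : Fin d → ℤ) : ℝ :=
  (law d p hp {ω | (openGraph ω).Reachable 0 x}).toReal

/-- `(1 - D̂(k)) τ̂_p(k)` -/
noncomputable def infra (d : ℕ) (p : NNReal) (hp : p ≤ 1) (k : Fin d → ℝ) : ℝ :=
  (∑' x : Fin d → ℤ, tau d p hp x * Real.cos (∑ i : Fin d, k i * (x i : ℝ)))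
    * (1 - (1 / (d : ℝ)) * ∑ i : Fin d, Real.cos (k i))

/-- the flux out of the set `S` of the flow `F` on the edges in `E`, where `F (x, i)` is the flow from
`x` to `x + e_i` -/
noncomputable def flux (E : Finset (Edge d)) (F : Edge d → ℝ) (S : Set (Fin d → ℤ)) : ℝ :=
  ∑ e ∈ E, F e * (S.indicator 1 e.1 - S.indicator 1 (upperEnd e))

/-- the tail of the edge `e` in the orientation `o` (`true` is from `x` to `x + e_i`) -/
def tail (o : Edge d → Bool) (e : Edge d) : Fin d → ℤ := if o e = true then e.1 else upperEnd e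

/-- the head of the edge `e` in the orientation `o` -/
def head (o : Edge d → Bool) (e : Edge d) : Fin d → ℤ := if o e = true then upperEnd e else e.1

open Classical in
/-- the number of the edges in `E` which are oriented out of `S` -/
noncomputable def outEdges (E : Finset (Edge d)) (o : Edge d → Bool) (S : Set (Fin d → ℤ)) : ℕ :=
  (E.filter fun e => tail o e ∈ S ∧ head o e ∉ S).card

open Classical in
/-- the number of the edges in `E` which are oriented into `S` -/
noncomputable def inEdges (E : Finset (Edge d)) (o : Edge d → Bool) (S : Set (Fin d → ℤ)) : ℕ :=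
  (E.filter fun e => tail o e ∉ S ∧ head o e ∈ S).card

/-- the mean of the sum over the clusters of `(out - in)²` -/
noncomputable def imbalance (d : ℕ) (p : NNReal) (hp : p ≤ 1) (E : Finset (Edge d)) (o : Edge d → Bool) : ℝ :=
  ∫ ω, ∑ᶠ c : (openGraph ω).ConnectedComponent, ((outEdges E o c.supp : ℝ) - inEdges E o c.supp) ^ 2
    ∂(law d p hp)

/-- the edges with lower end in the box `[0, n)^d` -/
noncomputable def boxEdges (d n : ℕ) : Finset (Edge d) :=
  (Fintype.piFinset fun _ => Finset.Ico (0 : ℤ) (n : ℤ)) ×ˢ (Finset.univ : Finset (Fin d))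

open Classical in
/-- the orientation given by the set of the edges which are oriented upwards -/
noncomputable def orient (S : Finset (Edge d)) (e : Edge d) : Bool := decide (e ∈ S)

open Classical in
/-- the plane wave orientation: the edge between `x` and `x + e_i` is oriented upwards if
`u < cos (k · x + θ) - cos (k · (x + e_i) + θ)` -/
noncomputable def waveOrient (k : Fin d → ℝ) (θ u : ℝ) (e : Edge d) : Bool :=
  decide (u < Real.cos (∑ i, k i * (e.1 i : ℝ) + θ) - Real.cos (∑ i, k i * (upperEnd e i : ℝ) + θ))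

/-- the mean number of the points of `[-n, n]^d` in the cluster of the origin -/
noncomputable def points (d : ℕ) (p : NNReal) (hp : p ≤ 1) (n : ℕ) : ℝ :=
  ∑ x ∈ Fintype.piFinset (fun _ : Fin d => Finset.Icc (-(n : ℤ)) (n : ℤ)), tau d p hp x

/-- the wave vectors in `(-π, π]^d` of maximum norm at most `r` -/
def zone (d : ℕ) (r : ℝ) : Set (Fin d → ℝ) := {k | (∀ j, -Real.pi < k j ∧ k j ≤ Real.pi) ∧ ∀ j, |k j| ≤ r}

/-- the critical point: the supremum of the parameters of finite susceptibility -/
noncomputable def pc (d : ℕ) : NNReal := sSup {p | ∃ hp : p ≤ 1, Summable (tau d p hp)}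

section proofs

open Pool.Agent.H74.IB
open Pool.Agent.Results.MP_54f242_pr.InfraredMean (P opn box G)

/-- the flow of an orientation -/
noncomputable def sg (o : Edge d → Bool) (e : Edge d) : ℝ := if o e = true then 1 else -1

theorem sg_or (o : Edge d → Bool) (e : Edge d) : sg o e = 1 ∨ sg o e = -1 := by
  unfold sg
  split_ifs <;> simp

theorem out_sub_in (E : Finset (Edge d)) (o : Edge d → Bool) (S : Set (Fin d → ℤ)) :
    (outEdges E o S : ℝ) - inEdges E o S = flux E (sg o) S := by
  classical
  unfold outEdges inEdges flux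
  rw [Finset.card_filter, Finset.card_filter]
  push_cast
  rw [← Finset.sum_sub_distrib]
  refine Finset.sum_congr rfl fun e _ => ?_
  unfold sg tail head
  simp only [Set.indicator_apply, Pi.one_apply]
  by_cases h1 : o e = true
  · by_cases h2 : e.1 ∈ S
    · by_cases h3 : upperEnd e ∈ S
      · simp [h1, h2, h3]
      · simp [h1, h2, h3]
    · by_cases h3 : upperEnd e ∈ S
      · simp [h1, h2, h3]
      · simp [h1, h2, h3]
  · by_cases h2 : e.1 ∈ S
    · by_cases h3 : upperEnd e ∈ S
      · simp [h1, h2, h3]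
      · simp [h1, h2, h3]
    · by_cases h3 : upperEnd e ∈ S
      · simp [h1, h2, h3]
      · simp [h1, h2, h3]

open Classical in
theorem flux_eq (E : Finset (Edge d)) (F : Edge d → ℝ) (S : Set (Fin d → ℤ)) :
    flux E F S = ∑ z ∈ E ×ˢ (Finset.univ : Finset Bool), dv F z * (if ends z ∈ S then 1 else 0) := by
  rw [sum_dv E F (fun v => if v ∈ S then (1 : ℝ) else 0)]
  unfold flux
  refine Finset.sum_congr rfl fun e _ => ?_
  simp only [Set.indicator_apply, Pi.one_apply]
  rfl

theorem flux_zero (E : Finset (Edge d)) (F : Edge d → ℝ) (S : Set (Fin d → ℤ))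
    (h : ∀ e ∈ E, e.1 ∉ S ∧ upperEnd e ∉ S) : flux E F S = 0 := by
  unfold flux
  refine Finset.sum_eq_zero fun e he => ?_
  rw [Set.indicator_of_notMem (h e he).1, Set.indicator_of_notMem (h e he).2]
  ring

theorem finite_flux (E : Finset (Edge d)) (ω : Edge d → Bool) :
    {c : (openGraph ω).ConnectedComponent | ∃ F : Edge d → ℝ, flux E F c.supp ≠ 0}.Finite := by
  classical
  refine Set.Finite.subset (Finset.finite_toSet
    (E.image (fun e => (openGraph ω).connectedComponentMk e.1) ∪
      E.image (fun e => (openGraph ω).connectedComponentMk (upperEnd e)))) ?_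
  rintro c ⟨F, hF⟩
  by_contra hc
  apply hF
  apply flux_zero
  intro e he
  rw [Finset.mem_coe, Finset.mem_union, Finset.mem_image, Finset.mem_image] at hc
  push Not at hc
  refine ⟨fun h => hc.1 e he ?_, fun h => hc.2 e he ?_⟩
  · exact h
  · exact h

theorem integral_flux (p : NNReal) (hp : p ≤ 1) (E : Finset (Edge d)) (F : Edge d → ℝ) :
    ∫ ω, ∑ᶠ c : (openGraph ω).ConnectedComponent, (flux E F c.supp) ^ 2 ∂(law d p hp) = qf d p hp E F := by
  classical
  have h := integral_components p hp (E ×ˢ (Finset.univ : Finset Bool)) ends (dv F)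
  rw [qf, ← h]
  simp_rw [flux_eq]
  rfl

theorem integrable_flux (p : NNReal) (hp : p ≤ 1) (E : Finset (Edge d)) (F : Edge d → ℝ) :
    Integrable (fun ω => ∑ᶠ c : (openGraph ω).ConnectedComponent, (flux E F c.supp) ^ 2) (law d p hp) := by
  classical
  have h0 : (fun ω : Edge d → Bool => ∑ᶠ c : (openGraph ω).ConnectedComponent, (flux E F c.supp) ^ 2) =
      fun ω => ∑ i ∈ E ×ˢ (Finset.univ : Finset Bool), ∑ j ∈ E ×ˢ (Finset.univ : Finset Bool),
        Set.indicator {ω | (opn (d := d) ω).Reachable (ends i) (ends j)} (fun _ => dv F i * dv F j) ω := by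
    funext ω
    simp_rw [flux_eq]
    refine (sum_components (opn ω) (E ×ˢ (Finset.univ : Finset Bool)) ends (dv F)).trans ?_
    refine Finset.sum_congr rfl fun i _ => Finset.sum_congr rfl fun j _ => ?_
    rw [Set.indicator_apply]
    rfl
  rw [h0]
  refine integrable_finsetSum _ fun i _ => integrable_finsetSum _ fun j _ => ?_
  have : IsProbabilityMeasure (law d p hp) := by unfold law; infer_instance
  exact (integrable_const _).indicator (InfraredMean.meas_reach _ _)

theorem imbalance_eq (p : NNReal) (hp : p ≤ 1) (E : Finset (Edge d)) (o : Edge d → Bool) :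
    imbalance d p hp E o = qf d p hp E (sg o) := by
  unfold imbalance
  simp_rw [out_sub_in]
  exact integral_flux p hp E (sg o)

theorem orient_sum (E : Finset (Edge d)) (e f : Edge d) (he : e ∈ E) (hef : e ≠ f) :
    ∑ S ∈ E.powerset, sg (orient S) e * sg (orient S) f = 0 := by
  classical
  have hE : E = insert e (E.erase e) := (Finset.insert_erase he).symm
  have hne : e ∉ E.erase e := Finset.notMem_erase e E
  rw [hE, Finset.sum_powerset_insert hne, ← Finset.sum_add_distrib]
  refine Finset.sum_eq_zero fun S hS => ?_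
  have h1 : e ∉ S := fun h => hne (Finset.mem_powerset.1 hS h)
  have h2 : sg (orient S) e = -1 := by simp [sg, orient, h1]
  have h3 : sg (orient (insert e S)) e = 1 := by simp [sg, orient]
  have h4 : sg (orient (insert e S)) f = sg (orient S) f := by
    unfold sg orient
    simp [Finset.mem_insert, hef.symm]
  rw [h2, h3, h4]
  ring

theorem average (p : NNReal) (hp : p ≤ 1) (E : Finset (Edge d)) :
    (∑ S ∈ E.powerset, imbalance d p hp E (orient S)) / 2 ^ E.card =
      2 * ∑ e ∈ E, (1 - tau d p hp (Pi.single e.2 1)) := by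
  classical
  simp_rw [imbalance_eq, qf_ker]
  rw [div_eq_iff (by positivity), Finset.sum_comm, Finset.mul_sum, Finset.sum_mul]
  refine Finset.sum_congr rfl fun e he => ?_
  rw [Finset.sum_comm, Finset.sum_eq_single e]
  · have h1 : ∀ S, sg (orient S) e * sg (orient S) e = 1 := by
      intro S
      rcases sg_or (orient S) e with h | h <;> rw [h] <;> norm_num
    simp_rw [h1]
    rw [Finset.sum_const, Finset.card_powerset, nsmul_eq_mul]
    have h2 : H74.IB.ker d p hp e e = 2 * (1 - tau d p hp (Pi.single e.2 1)) := by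
      unfold H74.IB.ker top
      have a1 : e.1 + Pi.single e.2 (1 : ℤ) - e.1 = Pi.single e.2 1 := by abel
      have a2 : e.1 - (e.1 + Pi.single e.2 (1 : ℤ)) = -Pi.single e.2 1 := by abel
      rw [a1, a2, sub_self, sub_self, InfraredMean.tau_zero, InfraredMean.tau_neg]
      have : InfraredMean.tau d p hp (Pi.single e.2 1) = tau d p hp (Pi.single e.2 1) := rfl
      rw [this]
      ring
    rw [h2]
    push_cast
    ring
  · intro f _ hfe
    rw [← Finset.sum_mul, orient_sum E e f he hfe.symm, zero_mul]
  · intro h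
    exact absurd he h

theorem imbalance_nonneg (p : NNReal) (hp : p ≤ 1) (E : Finset (Edge d)) (o : Edge d → Bool) :
    0 ≤ imbalance d p hp E o := by
  rw [imbalance_eq]
  exact qf_nonneg _ _ _ _

theorem average_le (p : NNReal) (hp : p ≤ 1) (E : Finset (Edge d)) :
    (∑ S ∈ E.powerset, imbalance d p hp E (orient S)) / 2 ^ E.card ≤ 2 * (E.card : ℝ) := by
  rw [average]
  have h1 : ∑ e ∈ E, (1 - tau d p hp (Pi.single e.2 1)) ≤ ∑ _e ∈ E, (1 : ℝ) := by
    refine Finset.sum_le_sum fun e _ => ?_
    have : 0 ≤ tau d p hp (Pi.single e.2 1) := ENNReal.toReal_nonneg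
    linarith
  rw [Finset.sum_const, nsmul_eq_mul, mul_one] at h1
  linarith

theorem few_bad (p : NNReal) (hp : p ≤ 1) (E : Finset (Edge d)) (t : ℝ) (ht : 0 < t) :
    t * ((E.powerset.filter fun S => t * (E.card : ℝ) < imbalance d p hp E (orient S)).card : ℝ) ≤
      2 * 2 ^ E.card := by
  classical
  rcases E.eq_empty_or_nonempty with hE | hE
  · subst hE
    have h0 : ∀ S : Finset (Edge d), imbalance d p hp ∅ (orient S) = 0 := by
      intro S
      rw [imbalance_eq, qf_ker]
      simp
    have : (Finset.powerset (∅ : Finset (Edge d))).filter (fun S => t * ((∅ : Finset (Edge d)).card : ℝ) <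
        imbalance d p hp ∅ (orient S)) = ∅ := by
      refine Finset.filter_eq_empty_iff.2 fun S _ => ?_
      rw [h0]
      simp
    rw [this]
    simp
  · have hc : (0 : ℝ) < E.card := by exact_mod_cast hE.card_pos
    have h1 : ((E.powerset.filter fun S => t * (E.card : ℝ) < imbalance d p hp E (orient S)).card : ℝ) *
        (t * E.card) ≤ ∑ S ∈ E.powerset, imbalance d p hp E (orient S) := by
      refine le_trans ?_ (Finset.sum_le_sum_of_subset_of_nonneg (Finset.filter_subset
        (fun S => t * (E.card : ℝ) < imbalance d p hp E (orient S)) E.powerset)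
        (fun S _ _ => imbalance_nonneg p hp E _))
      rw [← nsmul_eq_mul]
      refine Finset.card_nsmul_le_sum _ _ _ fun S hS => ?_
      exact (Finset.mem_filter.1 hS).2.le
    have h2 := average_le p hp E
    rw [div_le_iff₀ (by positivity)] at h2
    have h3 := h1.trans h2
    have h4 : (E.card : ℝ) * (t * ((E.powerset.filter fun S => t * (E.card : ℝ) <
        imbalance d p hp E (orient S)).card : ℝ)) ≤ (E.card : ℝ) * (2 * 2 ^ E.card) := by
      linarith
    exact le_of_mul_le_mul_left h4 hc

theorem card_boxEdges (d n : ℕ) : ((boxEdges d n).card : ℝ) = d * (n : ℝ) ^ d := by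
  unfold boxEdges
  rw [Finset.card_product, Fintype.card_piFinset]
  simp
  ring

/-- from the infrared bound to the flows -/
theorem forward (hd : 1 ≤ d) (p : NNReal) (hp : p ≤ 1) (hs : Summable (tau d p hp)) (A : ℝ)
    (hA : ∀ k, infra d p hp k ≤ A) (E : Finset (Edge d)) (F : Edge d → ℝ) :
    ∫ ω, ∑ᶠ c : (openGraph ω).ConnectedComponent, (flux E F c.supp) ^ 2 ∂(law d p hp) ≤
      2 * d * A * ∑ e ∈ E, F e ^ 2 := by
  rw [integral_flux]
  exact upper hd p hp hs A hA E F

theorem forward_orient (hd : 1 ≤ d) (p : NNReal) (hp : p ≤ 1) (hs : Summable (tau d p hp)) (A : ℝ)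
    (hA : ∀ k, infra d p hp k ≤ A) (E : Finset (Edge d)) (o : Edge d → Bool) :
    imbalance d p hp E o ≤ 2 * d * A * E.card := by
  rw [imbalance_eq]
  refine (upper hd p hp hs A hA E (sg o)).trans (le_of_eq ?_)
  have h1 : ∀ e ∈ E, sg o e ^ 2 = 1 := by
    intro e _
    rcases sg_or o e with h | h <;> rw [h] <;> norm_num
  rw [Finset.sum_congr rfl h1, Finset.sum_const, nsmul_eq_mul, mul_one]

theorem wave_re (k : Fin d → ℝ) (u : ℝ) : sg (waveOrient k 0 u) = fun e => sgu u (W k e).re := by
  funext e
  rw [W_re]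
  unfold sg waveOrient sgu
  simp only [add_zero]
  by_cases h : u < Real.cos (∑ i, k i * (e.1 i : ℝ)) - Real.cos (∑ i, k i * (upperEnd e i : ℝ))
  · rw [if_pos (decide_eq_true h)]
    exact (if_pos h).symm
  · rw [decide_eq_false h]
    exact (if_neg h).symm

theorem wave_im (k : Fin d → ℝ) (u : ℝ) :
    sg (waveOrient k (Real.pi / 2) u) = fun e => sgu u (W k e).im := by
  funext e
  rw [W_im]
  unfold sg waveOrient sgu
  by_cases h : u < Real.cos (∑ i, k i * (e.1 i : ℝ) + Real.pi / 2) -
      Real.cos (∑ i, k i * (upperEnd e i : ℝ) + Real.pi / 2)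
  · rw [if_pos (decide_eq_true h)]
    exact (if_pos h).symm
  · rw [decide_eq_false h]
    exact (if_neg h).symm

/-- from the plane wave orientations to the infrared bound -/
theorem backward (hd : 1 ≤ d) (p : NNReal) (hp : p ≤ 1) (hs : Summable (tau d p hp)) (B : ℝ) (k : Fin d → ℝ)
    (hB : ∀ n₀ : ℕ, ∃ n ≥ n₀, ∀ u : ℝ,
      imbalance d p hp (boxEdges d n) (waveOrient k 0 u) ≤ B * (boxEdges d n).card ∧
      imbalance d p hp (boxEdges d n) (waveOrient k (Real.pi / 2) u) ≤ B * (boxEdges d n).card) :
    infra d p hp k ≤ B := by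
  have hd0 : (0 : ℝ) < d := by exact_mod_cast hd
  have h := lower_wave hd p hp hs (B * d) k (fun n₀ => by
    obtain ⟨n, hn, h⟩ := hB n₀
    refine ⟨n, hn, fun u => ?_⟩
    have h1 := h u
    rw [imbalance_eq, imbalance_eq, card_boxEdges, wave_re, wave_im] at h1
    refine ⟨?_, ?_⟩
    · calc _ ≤ _ := h1.1
        _ = _ := by ring
    · calc _ ≤ _ := h1.2
        _ = _ := by ring)
  rw [mul_div_assoc, div_self hd0.ne', mul_one] at h
  exact h

theorem pc_le_one (d : ℕ) : pc d ≤ 1 := sSup_Sub_le d

/-- the flows at the critical point -/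
theorem flow_at_pc (hd : 1 ≤ d) (A : ℝ)
    (hA : ∀ (p : NNReal) (hp : p ≤ 1), Summable (tau d p hp) → ∀ k, infra d p hp k ≤ A)
    (E : Finset (Edge d)) (F : Edge d → ℝ) :
    ∫ ω, ∑ᶠ c : (openGraph ω).ConnectedComponent, (flux E F c.supp) ^ 2 ∂(law d (pc d) (pc_le_one d)) ≤
      2 * d * A * ∑ e ∈ E, F e ^ 2 := by
  rw [integral_flux]
  exact qf_at_pc E F _ fun p hp hs => upper hd p hp hs A (hA p hp hs) E F

theorem orient_at_pc (hd : 1 ≤ d) (A : ℝ)
    (hA : ∀ (p : NNReal) (hp : p ≤ 1), Summable (tau d p hp) → ∀ k, infra d p hp k ≤ A)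
    (E : Finset (Edge d)) (o : Edge d → Bool) :
    imbalance d (pc d) (pc_le_one d) E o ≤ 2 * d * A * E.card := by
  rw [imbalance_eq]
  refine qf_at_pc E (sg o) _ fun p hp hs => ?_
  rw [← imbalance_eq]
  exact forward_orient hd p hp hs A (hA p hp hs) E o

/-- growth from the orientations at one parameter -/
theorem growth_orient (hd : 3 ≤ d) (p : NNReal) (hp : p ≤ 1) (B : ℝ)
    (hB : ∀ (n : ℕ) (o : Edge d → Bool), imbalance d p hp (boxEdges d n) o ≤ B * (boxEdges d n).card)
    (hS : law d p hp {ω | {x : Fin d → ℤ | (openGraph ω).Reachable 0 x}.Infinite} = 0) (n : ℕ) (hn : 1 ≤ n) :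
    points d p hp n ≤ 216 * 6 ^ d * (B * d) * (n : ℝ) ^ 2 := by
  refine growth hd p hp (B * d) (fun n σ hσ => ?_) (S_small (by omega) p hp hS) n hn
  have h1 := hB n (fun e => decide (σ e = 1))
  rw [imbalance_eq, card_boxEdges] at h1
  have h2 : sg (fun e => decide (σ e = 1)) = σ := by
    funext e
    unfold sg
    rcases hσ e with h | h
    · simp [h]
    · have h3 : ¬ (σ e = 1) := by rw [h]; norm_num
      change (if decide (σ e = 1) = true then (1 : ℝ) else -1) = σ e
      rw [decide_eq_false h3, h]
      simp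
  rw [h2] at h1
  calc _ ≤ _ := h1
    _ = _ := by ring

theorem zone_eq (r : ℝ) : zone d r = InfraredMean.cube d ∩ cell (0 : Fin d → ℝ) r := by
  ext k
  simp only [zone, InfraredMean.cube, cell, Set.mem_inter_iff, Set.mem_pi, Set.mem_univ, true_imp_iff, Set.mem_Ioc,
    Pi.zero_apply, sub_zero]
  rfl

/-- the mean over the cubes from the orientations at one parameter -/
theorem mean_orient (hd : 3 ≤ d) (q : NNReal) (hq : q ≤ 1) (B : ℝ)
    (hB : ∀ (n : ℕ) (o : Edge d → Bool), imbalance d q hq (boxEdges d n) o ≤ B * (boxEdges d n).card)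
    (hS : law d q hq {ω | {x : Fin d → ℤ | (openGraph ω).Reachable 0 x}.Infinite} = 0)
    (p : NNReal) (hp : p ≤ 1) (hpq : p ≤ q) (hs : Summable (tau d p hp)) (r : ℝ) (hr : 0 < r) :
    ∫ k in zone d r, infra d p hp k ≤
      4 * (4 * Real.pi * d) ^ d * (216 * 6 ^ d * (B * d)) * r ^ d := by
  rw [zone_eq]
  exact avg_le (by omega) p hp hs (216 * 6 ^ d * (B * d))
    (fun n hn => (S_mono_param p q hp hq hpq n).trans (growth_orient hd q hq B hB hS n hn)) r hr

end proofs

/-- **The infrared bound and the oriented boundaries of the clusters.** -/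
theorem result :
    (∀ d : ℕ, 1 ≤ d → ∃ hc : pc d ≤ 1,
      -- the sums over the clusters are finite sums and have a mean; the average over the orientations
      (∀ (p : NNReal) (hp : p ≤ 1) (E : Finset (Edge d)),
        (∀ ω : Edge d → Bool,
          {c : (openGraph ω).ConnectedComponent | ∃ F : Edge d → ℝ, flux E F c.supp ≠ 0}.Finite) ∧
        (∀ F : Edge d → ℝ, Integrable (fun ω => ∑ᶠ c : (openGraph ω).ConnectedComponent,
          (flux E F c.supp) ^ 2) (law d p hp)) ∧
        (∀ o : Edge d → Bool, Integrable (fun ω => ∑ᶠ c : (openGraph ω).ConnectedComponent,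
          ((outEdges E o c.supp : ℝ) - inEdges E o c.supp) ^ 2) (law d p hp)) ∧
        (∑ S ∈ E.powerset, imbalance d p hp E (orient S)) / 2 ^ E.card =
          2 * ∑ e ∈ E, (1 - tau d p hp (Pi.single e.2 1)) ∧
        (∑ S ∈ E.powerset, imbalance d p hp E (orient S)) / 2 ^ E.card ≤ 2 * (E.card : ℝ) ∧
        (∀ t : ℝ, 0 < t →
          t * ((E.powerset.filter fun S => t * (E.card : ℝ) < imbalance d p hp E (orient S)).card : ℝ) ≤
            2 * 2 ^ E.card)) ∧
      -- the infrared bound at `p` gives the inequality for all the flows and all the orientations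
      (∀ (p : NNReal) (hp : p ≤ 1), Summable (tau d p hp) → ∀ A : ℝ, (∀ k, infra d p hp k ≤ A) →
        (∀ (E : Finset (Edge d)) (F : Edge d → ℝ),
          ∫ ω, ∑ᶠ c : (openGraph ω).ConnectedComponent, (flux E F c.supp) ^ 2 ∂(law d p hp) ≤
            2 * d * A * ∑ e ∈ E, F e ^ 2) ∧
        (∀ (E : Finset (Edge d)) (o : Edge d → Bool), imbalance d p hp E o ≤ 2 * d * A * E.card)) ∧
      -- the inequality on arbitrarily large boxes, for the orientations of the plane wave of wave vector
      -- `k`, gives the infrared bound at `k`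
      (∀ (p : NNReal) (hp : p ≤ 1), Summable (tau d p hp) → ∀ (B : ℝ) (k : Fin d → ℝ),
        (∀ n₀ : ℕ, ∃ n ≥ n₀, ∀ u : ℝ,
          imbalance d p hp (boxEdges d n) (waveOrient k 0 u) ≤ B * (boxEdges d n).card ∧
          imbalance d p hp (boxEdges d n) (waveOrient k (Real.pi / 2) u) ≤ B * (boxEdges d n).card) →
        infra d p hp k ≤ B) ∧
      -- the infrared bound below the critical point gives the inequality at the critical point
      (∀ A : ℝ, (∀ (p : NNReal) (hp : p ≤ 1), Summable (tau d p hp) → ∀ k, infra d p hp k ≤ A) →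
        (∀ (E : Finset (Edge d)) (F : Edge d → ℝ),
          ∫ ω, ∑ᶠ c : (openGraph ω).ConnectedComponent, (flux E F c.supp) ^ 2 ∂(law d (pc d) hc) ≤
            2 * d * A * ∑ e ∈ E, F e ^ 2) ∧
        (∀ (E : Finset (Edge d)) (o : Edge d → Bool), imbalance d (pc d) hc E o ≤ 2 * d * A * E.card)) ∧
      -- the inequality at one parameter without infinite cluster gives quadratic growth of the clusters,
      -- and the infrared bound in the mean over the cubes around the origin at all smaller parameters
      (3 ≤ d → ∀ (q : NNReal) (hq : q ≤ 1),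
        law d q hq {ω | {x : Fin d → ℤ | (openGraph ω).Reachable 0 x}.Infinite} = 0 → ∀ B : ℝ,
        (∀ (n : ℕ) (o : Edge d → Bool), imbalance d q hq (boxEdges d n) o ≤ B * (boxEdges d n).card) →
        (∀ n : ℕ, 1 ≤ n → points d q hq n ≤ 216 * 6 ^ d * (B * d) * (n : ℝ) ^ 2) ∧
        ∀ (p : NNReal) (hp : p ≤ 1), p ≤ q → Summable (tau d p hp) → ∀ r : ℝ, 0 < r → r ≤ Real.pi →
          ∫ k in zone d r, infra d p hp k ≤
            4 * (4 * Real.pi * d) ^ d * (216 * 6 ^ d * (B * d)) * r ^ d) ∧
      -- uniformly in `p`: all the orientations of all the finite sets of edges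
      ((∃ C : ℝ, ∀ (p : NNReal) (hp : p ≤ 1), Summable (tau d p hp) → ∀ k, infra d p hp k ≤ C) ↔
        ∃ B : ℝ, ∀ (p : NNReal) (hp : p ≤ 1), Summable (tau d p hp) →
          ∀ (E : Finset (Edge d)) (o : Edge d → Bool), imbalance d p hp E o ≤ B * E.card) ∧
      -- uniformly in `p`: the plane wave orientations of the boxes
      ((∃ C : ℝ, ∀ (p : NNReal) (hp : p ≤ 1), Summable (tau d p hp) → ∀ k, infra d p hp k ≤ C) ↔
        ∃ B : ℝ, ∀ (p : NNReal) (hp : p ≤ 1), Summable (tau d p hp) →
          ∀ (n : ℕ) (k : Fin d → ℝ) (θ u : ℝ),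
            imbalance d p hp (boxEdges d n) (waveOrient k θ u) ≤ B * (boxEdges d n).card)) ∧
    -- the question
    ((∀ d : ℕ, 7 ≤ d → ∃ C : ℝ, ∀ (p : NNReal) (hp : p ≤ 1), Summable (tau d p hp) →
        ∀ k : Fin d → ℝ, infra d p hp k ≤ C) ↔
      ∀ d : ℕ, 7 ≤ d → ∃ B : ℝ, ∀ (p : NNReal) (hp : p ≤ 1), Summable (tau d p hp) →
        ∀ (n : ℕ) (k : Fin d → ℝ) (θ u : ℝ),
          imbalance d p hp (boxEdges d n) (waveOrient k θ u) ≤ B * (boxEdges d n).card) := by
  have equiv : ∀ d : ℕ, 1 ≤ d → ((∃ C : ℝ, ∀ (p : NNReal) (hp : p ≤ 1), Summable (tau d p hp) →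
        ∀ k, infra d p hp k ≤ C) ↔
        ∃ B : ℝ, ∀ (p : NNReal) (hp : p ≤ 1), Summable (tau d p hp) →
          ∀ (n : ℕ) (k : Fin d → ℝ) (θ u : ℝ),
            imbalance d p hp (boxEdges d n) (waveOrient k θ u) ≤ B * (boxEdges d n).card) := by
    intro d hd
    constructor
    · rintro ⟨C, hC⟩
      exact ⟨2 * d * C, fun p hp hs n k θ u => forward_orient hd p hp hs C (hC p hp hs) _ _⟩
    · rintro ⟨B, hB⟩
      exact ⟨B, fun p hp hs k => backward hd p hp hs B k
        (fun n₀ => ⟨n₀, le_refl _, fun u => ⟨hB p hp hs n₀ k 0 u, hB p hp hs n₀ k (Real.pi / 2) u⟩⟩)⟩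
  refine ⟨fun d hd => ⟨pc_le_one d, fun p hp E => ⟨fun ω => finite_flux E ω,
    fun F => integrable_flux p hp E F,
    fun o => ?_, average p hp E, average_le p hp E, fun t ht => few_bad p hp E t ht⟩,
    fun p hp hs A hA => ⟨forward hd p hp hs A hA, forward_orient hd p hp hs A hA⟩,
    fun p hp hs B k hB => backward hd p hp hs B k hB,
    fun A hA => ⟨flow_at_pc hd A hA, orient_at_pc hd A hA⟩,
    fun hd3 q hq hS B hB => ⟨fun n hn => growth_orient hd3 q hq B hB hS n hn,
      fun p hp hpq hs r hr _ => mean_orient hd3 q hq B hB hS p hp hpq hs r hr⟩, ?_, equiv d hd⟩, ?_⟩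
  · simp_rw [out_sub_in]
    exact integrable_flux p hp E (sg o)
  · constructor
    · rintro ⟨C, hC⟩
      exact ⟨2 * d * C, fun p hp hs E o => forward_orient hd p hp hs C (hC p hp hs) E o⟩
    · rintro ⟨B, hB⟩
      exact (equiv d hd).2 ⟨B, fun p hp hs n k θ u => hB p hp hs _ _⟩
  · constructor
    · intro h d hd
      exact (equiv d (by omega)).1 (h d hd)
    · intro h d hd
      exact (equiv d (by omega)).2 (h d hd)

end Pool.Agent.Results.MP_54f242_pr.ClusterImbalance
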