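import Pool.Agent.H74.IB.PlaneB

/-!
# The infrared bound of percolation in the mean over coordinate planes and axes

For bond percolation on `ℤ^d` let `G_p(k) = (1 - D̂(k)) τ̂_p(k)`. The infrared bound in the mean of order `m` over the
cubes around the origin of a coordinate plane of dimension `j`, `2 m < j < d`, uniformly below the critical point, holds
if and only if at the critical point the sums of the `m`-fold convolution of the two-point function over the columns
`[-n, n]^j × ℤ^(d-j)` are `O(n^(2 m))`; the smaller the plane, the stronger the property. On the coordinate axes the bound in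
the mean holds if and only if the mean numbers of the points of the cluster of the origin in the hyperplanes `x_i = 0`
and `x_i = n` differ by at most `B n`, uniformly below the critical point.
-/

set_option autoImplicit false

open MeasureTheory Filter Topology
open scoped ENNReal

namespace Pool.Agent.Results.MP_54f242_pr.CoordinatePlanes

variable {d j : ℕ}

/-- the open subgraph of a configuration; `(x, i)` is the edge between `x` and `x + e_i` -/
def openGraph (ω : (Fin d → ℤ) × Fin d → Bool) : SimpleGraph (Fin d → ℤ) :=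
  SimpleGraph.fromRel (fun a b : Fin d → ℤ => ∃ i : Fin d, b = a + Pi.single i (1 : ℤ) ∧ ω (a, i) = true)

/-- bond percolation on `ℤ^d` with parameter `p` -/
noncomputable def law (d : ℕ) (p : NNReal) (hp : p ≤ 1) : Measure ((Fin d → ℤ) × Fin d → Bool) :=
  Measure.infinitePi (fun _ : (Fin d → ℤ) × Fin d => (PMF.bernoulli p hp).toMeasure)

/-- the probability that `0` and `x` are connected, in `[0, ∞]` -/
noncomputable def conn (d : ℕ) (p : NNReal) (hp : p ≤ 1) (x : Fin d → ℤ) : ℝ≥0∞ :=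
  law d p hp {ω | (openGraph ω).Reachable 0 x}

/-- the two-point function `τ_p(x)` -/
noncomputable def tau (d : ℕ) (p : NNReal) (hp : p ≤ 1) (x : Fin d → ℤ) : ℝ := (conn d p hp x).toReal

/-- the `m`-fold convolution of the two-point function, with values in `[0, ∞]` -/
noncomputable def power (d : ℕ) (p : NNReal) (hp : p ≤ 1) : ℕ → (Fin d → ℤ) → ℝ≥0∞
  | 0, x => if x = 0 then 1 else 0
  | m + 1, x => ∑' y : Fin d → ℤ, conn d p hp y * power d p hp m (x - y)

/-- `(1 - D̂(k)) τ̂_p(k)` -/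
noncomputable def infra (d : ℕ) (p : NNReal) (hp : p ≤ 1) (k : Fin d → ℝ) : ℝ :=
  (∑' x : Fin d → ℤ, tau d p hp x * Real.cos (∑ i : Fin d, k i * (x i : ℝ)))
    * (1 - (1 / (d : ℝ)) * ∑ i : Fin d, Real.cos (k i))

/-- the points of `(-π, π]^j` of maximum norm at most `r` -/
def zone (j : ℕ) (r : ℝ) : Set (Fin j → ℝ) := {κ | (∀ l, -Real.pi < κ l ∧ κ l ≤ Real.pi) ∧ ∀ l, |κ l| ≤ r}

/-- the wave vector of the coordinate plane of the coordinates `ι 0, ι 1, …` with these coordinates `κ` -/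
noncomputable def embed (ι : Fin j → Fin d) (κ : Fin j → ℝ) : Fin d → ℝ :=
  fun i => ∑ l : Fin j, if ι l = i then κ l else 0

/-- the critical point: the supremum of the parameters of finite susceptibility -/
noncomputable def pc (d : ℕ) : NNReal := sSup {p | ∃ hp : p ≤ 1, Summable (tau d p hp)}

open Classical in
/-- the sum of the `m`-fold convolution over the column of the points with `|x_i| ≤ n` for the coordinates `i = ι l` -/
noncomputable def colSum (d : ℕ) (p : NNReal) (hp : p ≤ 1) (ι : Fin j → Fin d) (m n : ℕ) : ℝ≥0∞ :=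
  ∑' x : Fin d → ℤ, if ∀ l, |x (ι l)| ≤ (n : ℤ) then power d p hp m x else 0

/-- the sum of `τ_p` over the hyperplane `x_i = n` -/
noncomputable def planeSum (d : ℕ) (p : NNReal) (hp : p ≤ 1) (i : Fin d) (n : ℕ) : ℝ :=
  ∑' x : Fin d → ℤ, if x i = (n : ℤ) then tau d p hp x else 0

/-- the infrared bound in the mean of order `m` on the coordinate plane of `ι`, uniformly in `p` -/
def MeanBoundOn (ι : Fin j → Fin d) (m : ℕ) : Prop :=
  ∃ a : ℝ, ∀ (p : NNReal) (hp : p ≤ 1), Summable (tau d p hp) →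
    ∀ r : ℝ, 0 < r → r ≤ Real.pi → ∫ κ in zone j r, infra d p hp (embed ι κ) ^ m ≤ a * r ^ j

section proofs

open Pool.Agent.H74.IB
open Pool.Agent.Results.MP_54f242_pr.InfraredMean (cube cs G G_nonneg G_cont Dhat integrable_of_cont cube_meas
  tau_nonneg tau_neg)

theorem zone_eq (r : ℝ) : zone j r = cube j ∩ cell 0 r := by
  ext k
  simp only [zone, cube, cell, Set.mem_inter_iff, Set.mem_pi, Set.mem_univ, true_imp_iff, Set.mem_Ioc,
    Pi.zero_apply, sub_zero]
  rfl

theorem power_eq (p : NNReal) (hp : p ≤ 1) : ∀ (m : ℕ) (x : Fin d → ℤ), power d p hp m x = ep d p hp m x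
  | 0, _ => rfl
  | m + 1, x => by
    unfold power ep
    exact tsum_congr fun y => by rw [power_eq p hp m]; rfl

theorem colSum_eq (p : NNReal) (hp : p ≤ 1) (ι : Fin j → Fin d) (m n : ℕ) :
    colSum d p hp ι m n = col d p hp ι m n := by
  classical
  unfold colSum col
  refine tsum_congr fun x => ?_
  rw [power_eq]

theorem pc_le_one (d : ℕ) : pc d ≤ 1 := sSup_Sub_le d

theorem infra_embed (hj : 1 ≤ j) (hd : 1 ≤ d) (p : NNReal) (hp : p ≤ 1) (hs : Summable (tau d p hp))
    (ι : Fin j → Fin d) (hι : Function.Injective ι) (m : ℕ) (κ : Fin j → ℝ) :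
    infra d p hp (embed ι κ) ^ m =
      ((j : ℝ) / d) ^ m * (cs (push ι (rp d p hp m)) κ * (1 - Dhat κ) ^ m) := by
  have h1 : infra d p hp (embed ι κ) = G d p hp (ext ι κ) := rfl
  rw [h1, G_pow p hp hs, Dhat_ext hj hd ι hι, (good_push ι (good_rp p hp hs m)).2 κ, mul_pow]
  ring

theorem integral_eq (hj : 1 ≤ j) (hd : 1 ≤ d) (p : NNReal) (hp : p ≤ 1) (hs : Summable (tau d p hp))
    (ι : Fin j → Fin d) (hι : Function.Injective ι) (m : ℕ) (r : ℝ) :
    ∫ κ in zone j r, infra d p hp (embed ι κ) ^ m = ((j : ℝ) / d) ^ m *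
      ∫ κ in cube j ∩ cell (0 : Fin j → ℝ) r, cs (push ι (rp d p hp m)) κ * (1 - Dhat κ) ^ m := by
  rw [zone_eq, ← integral_const_mul]
  refine integral_congr_ae (Eventually.of_forall fun κ => ?_)
  exact infra_embed hj hd p hp hs ι hι m κ

theorem colSum_le_iff (p : NNReal) (hp : p ≤ 1) (hs : Summable (tau d p hp)) (ι : Fin j → Fin d) (m n : ℕ)
    (B : ℝ) (hB : 0 ≤ B) : colSum d p hp ι m n ≤ ENNReal.ofReal B ↔ SA (push ι (rp d p hp m)) n ≤ B := by
  rw [colSum_eq, col_eq p hp hs, ENNReal.ofReal_le_ofReal_iff hB]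

/-- the quantitative comparison at each parameter -/
theorem main (hj : 1 ≤ j) (hd : 1 ≤ d) (m : ℕ) : ∃ K : ℝ, 0 < K ∧ ∀ ι : Fin j → Fin d,
    Function.Injective ι → ∀ (p : NNReal) (hp : p ≤ 1), Summable (tau d p hp) →
      (∀ b : ℝ, 0 ≤ b → (∀ n : ℕ, 1 ≤ n → colSum d p hp ι m n ≤ ENNReal.ofReal (b * (n : ℝ) ^ (2 * m))) →
        ∀ r : ℝ, 0 < r → r ≤ Real.pi → ∫ κ in zone j r, infra d p hp (embed ι κ) ^ m ≤ K * b * r ^ j) ∧
      (2 * m < j → ∀ a : ℝ,
        (∀ r : ℝ, 0 < r → r ≤ Real.pi → ∫ κ in zone j r, infra d p hp (embed ι κ) ^ m ≤ a * r ^ j) →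
          ∀ n : ℕ, 1 ≤ n → colSum d p hp ι m n ≤ ENNReal.ofReal (K * a * (n : ℝ) ^ (2 * m))) := by
  have hpi := Real.pi_pos
  have hd0 : (0 : ℝ) < d := by exact_mod_cast hd
  have hj0 : (0 : ℝ) < j := by exact_mod_cast hj
  have hZ : 0 ≤ H74.IB.Z (j - 2 * m) := tsum_nonneg fun u => by positivity
  set c : ℝ := ((j : ℝ) / d) ^ m with hc
  have hc0 : 0 < c := by positivity
  set K1 : ℝ := c * (2 * 2 ^ m * (4 * Real.pi * j) ^ j) with hK1
  set K2 : ℝ := 2 * (2 * j * Real.pi ^ 2) ^ m * 2 ^ m * H74.IB.Z (j - 2 * m) / c with hK2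
  have h1 : 0 < K1 := by positivity
  have h2 : 0 ≤ K2 := by positivity
  refine ⟨K1 + K2, by positivity, fun ι hι p hp hs => ?_⟩
  have hg : H74.IB.Good (H74.IB.push ι (H74.IB.rp d p hp m)) :=
    (H74.IB.good_push ι (H74.IB.good_rp p hp hs m)).1
  refine ⟨?_, ?_⟩
  · intro b hb0 hb r hr0 hr
    rw [integral_eq hj hd p hp hs ι hι]
    have hb' : ∀ n : ℕ, 1 ≤ n → H74.IB.SA (H74.IB.push ι (H74.IB.rp d p hp m)) n ≤ b * (n : ℝ) ^ (2 * m) :=
      fun n hn => (colSum_le_iff p hp hs ι m n _ (by positivity)).1 (hb n hn)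
    refine (mul_le_mul_of_nonneg_left (H74.IB.avg_leA hj hg m b hb' r hr0) hc0.le).trans ?_
    calc c * (2 * 2 ^ m * (4 * Real.pi * j) ^ j * b * r ^ j) = K1 * b * r ^ j := by rw [hK1]; ring
      _ ≤ _ := by
        refine mul_le_mul_of_nonneg_right (mul_le_mul_of_nonneg_right ?_ hb0) (by positivity)
        linarith
  · intro hlt a ha n hn
    have ha' : ∀ r : ℝ, 0 < r → r ≤ Real.pi →
        ∫ κ in InfraredMean.cube j ∩ H74.IB.cell (0 : Fin j → ℝ) r,
          InfraredMean.cs (H74.IB.push ι (H74.IB.rp d p hp m)) κ * (1 - InfraredMean.Dhat κ) ^ m ≤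
            a / c * r ^ j := by
      intro r hr0 hr
      have h3 := ha r hr0 hr
      rw [integral_eq hj hd p hp hs ι hι] at h3
      rw [div_mul_eq_mul_div, le_div_iff₀ hc0, mul_comm]
      exact h3
    have ha0 : 0 ≤ a := by
      have h7 := ha' Real.pi hpi le_rfl
      have h8 : 0 ≤ ∫ κ in InfraredMean.cube j ∩ H74.IB.cell (0 : Fin j → ℝ) Real.pi,
          InfraredMean.cs (H74.IB.push ι (H74.IB.rp d p hp m)) κ * (1 - InfraredMean.Dhat κ) ^ m :=
        integral_nonneg fun k => mul_nonneg (hg.ft k) (pow_nonneg (H74.IB.one_sub_Dhat_nonneg k) m)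
      have h9 : 0 ≤ a / c := nonneg_of_mul_nonneg_left (h8.trans h7) (by positivity)
      have h10 := mul_nonneg h9 hc0.le
      rwa [div_mul_cancel₀ _ hc0.ne'] at h10
    rw [colSum_le_iff p hp hs ι m n _ (by positivity)]
    refine (H74.IB.growthA hj hg m (j - 2 * m) (by omega) (by omega) (a / c) ha' n hn).trans ?_
    refine mul_le_mul_of_nonneg_right ?_ (by positivity)
    calc 2 * (2 * j * Real.pi ^ 2) ^ m * 2 ^ m * H74.IB.Z (j - 2 * m) * (a / c) = K2 * a := by
          rw [hK2]; ring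
      _ ≤ _ := mul_le_mul_of_nonneg_right (by linarith) ha0

theorem back (hj : 1 ≤ j) (hd : 1 ≤ d) (m : ℕ) (ι : Fin j → Fin d) (hι : Function.Injective ι)
    (h : ∃ b : ℝ, ∀ n : ℕ, 1 ≤ n →
      colSum d (pc d) (pc_le_one d) ι m n ≤ ENNReal.ofReal (b * (n : ℝ) ^ (2 * m))) : MeanBoundOn ι m := by
  obtain ⟨K, hK, hmain⟩ := main (d := d) hj hd m
  obtain ⟨b, hb⟩ := h
  refine ⟨K * max b 0, fun p hp hs => (hmain ι hι p hp hs).1 _ (le_max_right _ _) fun n hn => ?_⟩
  have h4 := hb n hn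
  rw [colSum_eq] at h4 ⊢
  refine ((H74.IB.col_at_pc ι m n _).2 (h4.trans ?_)) p hp hs
  exact ENNReal.ofReal_le_ofReal (mul_le_mul_of_nonneg_right (le_max_left _ _) (by positivity))

theorem forth (hj : 1 ≤ j) (hd : 1 ≤ d) (m : ℕ) (hlt : 2 * m < j) (ι : Fin j → Fin d)
    (hι : Function.Injective ι) (h : MeanBoundOn ι m) : ∃ b : ℝ, ∀ n : ℕ, 1 ≤ n →
      colSum d (pc d) (pc_le_one d) ι m n ≤ ENNReal.ofReal (b * (n : ℝ) ^ (2 * m)) := by
  obtain ⟨K, hK, hmain⟩ := main (d := d) hj hd m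
  obtain ⟨a, ha⟩ := h
  refine ⟨K * a, fun n hn => ?_⟩
  rw [colSum_eq]
  refine (H74.IB.col_at_pc ι m n _).1 fun p hp hs => ?_
  rw [← colSum_eq]
  exact (hmain ι hι p hp hs).2 hlt a (ha p hp hs) n hn

theorem good_tau (p : NNReal) (hp : p ≤ 1) (hs : Summable (tau d p hp)) :
    H74.IB.Good (InfraredMean.tau d p hp) where
  nn := tau_nonneg p hp
  sm := hs
  ev := tau_neg p hp
  ft := H74.IB.cs_nonneg p hp hs

theorem planeSum_eq (p : NNReal) (hp : p ≤ 1) (i : Fin d) (n : ℕ) :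
    planeSum d p hp i n = H74.IB.push (fun _ : Fin 1 => i) (InfraredMean.tau d p hp) (H74.IB.pt n) := by
  classical
  unfold planeSum H74.IB.push
  refine tsum_congr fun x => if_congr ?_ rfl rfl
  constructor
  · intro h
    funext l
    exact h
  · intro h
    exact congrFun h 0

theorem plane_zero (p : NNReal) (hp : p ≤ 1) (i : Fin d) :
    planeSum d p hp i 0 = H74.IB.push (fun _ : Fin 1 => i) (InfraredMean.tau d p hp) 0 := by
  rw [planeSum_eq]
  rfl

theorem axis_integral (hd : 1 ≤ d) (p : NNReal) (hp : p ≤ 1) (hs : Summable (tau d p hp)) (i : Fin d)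
    (r : ℝ) : ∫ κ in zone 1 r, infra d p hp (embed (fun _ : Fin 1 => i) κ) = 1 / (d : ℝ) *
      ∫ κ in cube 1 ∩ cell (0 : Fin 1 → ℝ) r,
        cs (push (fun _ : Fin 1 => i) (InfraredMean.tau d p hp)) κ * (1 - Dhat κ) := by
  rw [zone_eq, ← integral_const_mul]
  refine integral_congr_ae (Eventually.of_forall fun κ => ?_)
  have hι : Function.Injective (fun _ : Fin 1 => i) := fun a b _ => Subsingleton.elim a b
  have h1 : infra d p hp (embed (fun _ : Fin 1 => i) κ) = G d p hp (ext (fun _ : Fin 1 => i) κ) := rfl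
  have h2 := Dhat_ext le_rfl hd (fun _ : Fin 1 => i) hι κ
  have h3 := (good_push (fun _ : Fin 1 => i) (good_tau p hp hs)).2 κ
  change infra d p hp (embed (fun _ : Fin 1 => i) κ) = 1 / (d : ℝ) *
    (cs (push (fun _ : Fin 1 => i) (InfraredMean.tau d p hp)) κ * (1 - Dhat κ))
  rw [h1, G_def, h2, h3]
  push_cast
  ring

end proofs

/-- **The infrared bound in the mean over coordinate planes and axes.** -/
theorem result (d : ℕ) (hd : 1 ≤ d) : ∃ hc : pc d ≤ 1,
    -- coordinate planes of dimension `j < d`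
    (∀ j m : ℕ, 1 ≤ j → j < d → 1 ≤ m →
      (∃ K : ℝ, 0 < K ∧ ∀ ι : Fin j → Fin d, Function.Injective ι →
        ∀ (p : NNReal) (hp : p ≤ 1), Summable (tau d p hp) →
          (∀ b : ℝ, 0 ≤ b → (∀ n : ℕ, 1 ≤ n → colSum d p hp ι m n ≤ ENNReal.ofReal (b * (n : ℝ) ^ (2 * m))) →
            ∀ r : ℝ, 0 < r → r ≤ Real.pi → ∫ κ in zone j r, infra d p hp (embed ι κ) ^ m ≤ K * b * r ^ j) ∧
          (2 * m < j → ∀ a : ℝ,
            (∀ r : ℝ, 0 < r → r ≤ Real.pi → ∫ κ in zone j r, infra d p hp (embed ι κ) ^ m ≤ a * r ^ j) →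
              ∀ n : ℕ, 1 ≤ n → colSum d p hp ι m n ≤ ENNReal.ofReal (K * a * (n : ℝ) ^ (2 * m)))) ∧
      ∀ ι : Fin j → Fin d, Function.Injective ι →
        ((∃ b : ℝ, ∀ n : ℕ, 1 ≤ n → colSum d (pc d) hc ι m n ≤ ENNReal.ofReal (b * (n : ℝ) ^ (2 * m))) →
          MeanBoundOn ι m) ∧
        (2 * m < j →
          (MeanBoundOn ι m ↔
            ∃ b : ℝ, ∀ n : ℕ, 1 ≤ n → colSum d (pc d) hc ι m n ≤ ENNReal.ofReal (b * (n : ℝ) ^ (2 * m))) ∧
          -- the smaller the plane, the stronger the property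
          ∀ (i : ℕ) (ι' : Fin i → Fin d), Function.Injective ι' → Set.range ι ⊆ Set.range ι' →
            MeanBoundOn ι m → MeanBoundOn ι' m)) ∧
    -- the coordinate axes
    (∃ K : ℝ, 0 < K ∧ ∀ (i : Fin d) (p : NNReal) (hp : p ≤ 1), Summable (tau d p hp) →
      (∀ n : ℕ, planeSum d p hp i n ≤ planeSum d p hp i 0) ∧
      (∀ B : ℝ, (∀ n : ℕ, 1 ≤ n → planeSum d p hp i 0 - planeSum d p hp i n ≤ B * n) →
        ∀ r : ℝ, 0 < r → r ≤ Real.pi →
          ∫ κ in zone 1 r, infra d p hp (embed (fun _ : Fin 1 => i) κ) ≤ K * B * r) ∧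
      (∀ a : ℝ, (∀ r : ℝ, 0 < r → r ≤ Real.pi →
          ∫ κ in zone 1 r, infra d p hp (embed (fun _ : Fin 1 => i) κ) ≤ a * r) →
        ∀ n : ℕ, 1 ≤ n → planeSum d p hp i 0 - planeSum d p hp i n ≤ K * a * n)) ∧
    (∀ i : Fin d, MeanBoundOn (fun _ : Fin 1 => i) 1 ↔
      ∃ B : ℝ, ∀ (p : NNReal) (hp : p ≤ 1), Summable (tau d p hp) → ∀ n : ℕ, 1 ≤ n →
        planeSum d p hp i 0 - planeSum d p hp i n ≤ B * n) ∧
    -- all these properties follow from the infrared bound
    ((∃ A : ℝ, ∀ (p : NNReal) (hp : p ≤ 1), Summable (tau d p hp) → ∀ k : Fin d → ℝ, infra d p hp k ≤ A) →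
      ∀ (j m : ℕ) (ι : Fin j → Fin d), MeanBoundOn ι m) := by
  have hpi := Real.pi_pos
  have hd0 : (0 : ℝ) < d := by exact_mod_cast hd
  have haxis : ∃ K : ℝ, 0 < K ∧ ∀ (i : Fin d) (p : NNReal) (hp : p ≤ 1), Summable (tau d p hp) →
      (∀ n : ℕ, planeSum d p hp i n ≤ planeSum d p hp i 0) ∧
      (∀ B : ℝ, (∀ n : ℕ, 1 ≤ n → planeSum d p hp i 0 - planeSum d p hp i n ≤ B * n) →
        ∀ r : ℝ, 0 < r → r ≤ Real.pi →
          ∫ κ in zone 1 r, infra d p hp (embed (fun _ : Fin 1 => i) κ) ≤ K * B * r) ∧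
      (∀ a : ℝ, (∀ r : ℝ, 0 < r → r ≤ Real.pi →
          ∫ κ in zone 1 r, infra d p hp (embed (fun _ : Fin 1 => i) κ) ≤ a * r) →
        ∀ n : ℕ, 1 ≤ n → planeSum d p hp i 0 - planeSum d p hp i n ≤ K * a * n) := by
    refine ⟨Real.pi ^ 3 + 3 * Real.pi * d, by positivity, fun i p hp hs => ?_⟩
    have hg := (H74.IB.good_push (fun _ : Fin 1 => i) (good_tau p hp hs)).1
    refine ⟨fun n => ?_, fun B hB r hr0 hr => ?_, fun a ha n hn => ?_⟩
    · have := H74.IB.diff_nonneg hg n
      rw [plane_zero, planeSum_eq]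
      linarith
    · have hB' : ∀ n : ℕ, 1 ≤ n → H74.IB.push (fun _ : Fin 1 => i) (InfraredMean.tau d p hp) 0 -
          H74.IB.push (fun _ : Fin 1 => i) (InfraredMean.tau d p hp) (H74.IB.pt n) ≤ B * n := by
        intro n hn
        rw [← plane_zero, ← planeSum_eq]
        exact hB n hn
      have hB0 : 0 ≤ B := by
        have := (H74.IB.diff_nonneg hg 1).trans (hB' 1 le_rfl)
        simpa using this
      rw [axis_integral hd p hp hs]
      have h1 := H74.IB.axis_backward hg B hB' r hr0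
      have h2 : 1 / (d : ℝ) ≤ 1 := by
        rw [div_le_one hd0]
        exact_mod_cast hd
      have h3 : 0 ≤ ∫ κ in InfraredMean.cube 1 ∩ H74.IB.cell (0 : Fin 1 → ℝ) r,
          InfraredMean.cs (H74.IB.push (fun _ : Fin 1 => i) (InfraredMean.tau d p hp)) κ *
            (1 - InfraredMean.Dhat κ) :=
        integral_nonneg fun κ => mul_nonneg (hg.ft κ) (H74.IB.one_sub_Dhat_nonneg κ)
      calc _ ≤ 1 * ∫ κ in InfraredMean.cube 1 ∩ H74.IB.cell (0 : Fin 1 → ℝ) r,
            InfraredMean.cs (H74.IB.push (fun _ : Fin 1 => i) (InfraredMean.tau d p hp)) κ *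
              (1 - InfraredMean.Dhat κ) := mul_le_mul_of_nonneg_right h2 h3
        _ ≤ Real.pi ^ 3 * B * r := by rw [one_mul]; exact h1
        _ ≤ _ := by
          refine mul_le_mul_of_nonneg_right (mul_le_mul_of_nonneg_right ?_ hB0) hr0.le
          have : 0 ≤ 3 * Real.pi * d := by positivity
          linarith
    · have ha' : ∀ r : ℝ, 0 < r → r ≤ Real.pi →
          ∫ κ in InfraredMean.cube 1 ∩ H74.IB.cell (0 : Fin 1 → ℝ) r,
            InfraredMean.cs (H74.IB.push (fun _ : Fin 1 => i) (InfraredMean.tau d p hp)) κ *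
              (1 - InfraredMean.Dhat κ) ≤ (d * a) * r := by
        intro r hr0 hr
        have h1 := ha r hr0 hr
        rw [axis_integral hd p hp hs] at h1
        have h2 := mul_le_mul_of_nonneg_left h1 hd0.le
        rw [← mul_assoc, mul_one_div, div_self hd0.ne', one_mul] at h2
        linarith
      have ha0 : 0 ≤ a := by
        have h7 := ha' Real.pi hpi le_rfl
        have h8 : 0 ≤ ∫ κ in InfraredMean.cube 1 ∩ H74.IB.cell (0 : Fin 1 → ℝ) Real.pi,
            InfraredMean.cs (H74.IB.push (fun _ : Fin 1 => i) (InfraredMean.tau d p hp)) κ *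
              (1 - InfraredMean.Dhat κ) :=
          integral_nonneg fun κ => mul_nonneg (hg.ft κ) (H74.IB.one_sub_Dhat_nonneg κ)
        have h9 : 0 ≤ d * a := nonneg_of_mul_nonneg_left (h8.trans h7) hpi
        exact nonneg_of_mul_nonneg_right h9 hd0
      rw [plane_zero, planeSum_eq]
      refine (H74.IB.axis_forward hg (d * a) ha' n hn).trans ?_
      have hn0 : (0 : ℝ) ≤ n := Nat.cast_nonneg n
      calc 3 * Real.pi * (d * a) * n = 3 * Real.pi * d * a * n := by ring
        _ ≤ _ := by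
          refine mul_le_mul_of_nonneg_right (mul_le_mul_of_nonneg_right ?_ ha0) hn0
          have : 0 ≤ Real.pi ^ 3 := by positivity
          linarith
  refine ⟨pc_le_one d, fun j m hj hjd hm => ⟨main hj hd m, fun ι hι => ⟨back hj hd m ι hι, fun hlt =>
    ⟨⟨forth hj hd m hlt ι hι, back hj hd m ι hι⟩, fun i ι' hι' hr h => ?_⟩⟩⟩, haxis, fun i => ?_, ?_⟩
  · obtain ⟨b, hb⟩ := forth hj hd m hlt ι hι h
    have hi : 1 ≤ i := by
      have h1 : ι ⟨0, by omega⟩ ∈ Set.range ι' := hr ⟨_, rfl⟩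
      obtain ⟨l, _⟩ := h1
      have := l.2
      omega
    refine back hi hd m ι' hι' ⟨b, fun n hn => ?_⟩
    refine le_trans ?_ (hb n hn)
    rw [colSum_eq, colSum_eq]
    exact H74.IB.col_mono _ _ ι ι' hr m n
  · obtain ⟨K, hK, hax⟩ := haxis
    constructor
    · rintro ⟨a, ha⟩
      refine ⟨K * a, fun p hp hs => (hax i p hp hs).2.2 a fun r hr0 hr => ?_⟩
      have := ha p hp hs r hr0 hr
      simpa only [pow_one] using this
    · rintro ⟨B, hB⟩
      refine ⟨K * B, fun p hp hs r hr0 hr => ?_⟩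
      have := (hax i p hp hs).2.1 B (hB p hp hs) r hr0 hr
      simpa only [pow_one] using this
  · rintro ⟨A, hA⟩ j m ι
    refine ⟨A ^ m * 2 ^ j, fun p hp hs r hr0 hr => ?_⟩
    have hA0 : 0 ≤ A := (InfraredMean.G_nonneg p hp hs 0).trans (hA p hp hs 0)
    have hcell : H74.IB.cell (0 : Fin j → ℝ) r = Set.Icc (fun _ => -r) (fun _ => r) := by
      ext k
      simp only [H74.IB.cell, Set.mem_setOf_eq, Pi.zero_apply, sub_zero, Set.mem_Icc, Pi.le_def]
      constructor
      · intro h1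
        exact ⟨fun i => (abs_le.1 (h1 i)).1, fun i => (abs_le.1 (h1 i)).2⟩
      · intro h1 i
        exact abs_le.2 ⟨h1.1 i, h1.2 i⟩
    have hvol : volume.real (H74.IB.cell (0 : Fin j → ℝ) r) = (2 * r) ^ j := by
      rw [hcell, measureReal_def, Real.volume_Icc_pi_toReal (fun _ => by linarith)]
      simp only [Finset.prod_const, Finset.card_univ, Fintype.card_fin]
      congr 1
      ring
    have hfin : volume (H74.IB.cell (0 : Fin j → ℝ) r) < ⊤ := by
      rw [hcell]
      exact isCompact_Icc.measure_lt_top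
    have hf : volume (InfraredMean.cube j ∩ H74.IB.cell (0 : Fin j → ℝ) r) < ⊤ :=
      (measure_mono Set.inter_subset_right).trans_lt hfin
    have hv : volume.real (InfraredMean.cube j ∩ H74.IB.cell (0 : Fin j → ℝ) r) ≤ 2 ^ j * r ^ j := by
      rw [← mul_pow, ← hvol]
      exact measureReal_mono Set.inter_subset_right hfin.ne
    rw [zone_eq]
    have hcont : Continuous fun κ : Fin j → ℝ => infra d p hp (embed ι κ) ^ m := by
      have h1 : Continuous fun κ : Fin j → ℝ => H74.IB.ext ι κ := by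
        refine continuous_pi fun i => ?_
        unfold H74.IB.ext
        refine continuous_finsetSum _ fun l _ => ?_
        split_ifs
        · exact continuous_apply l
        · exact continuous_const
      exact ((InfraredMean.G_cont p hp hs).comp h1).pow m
    calc ∫ κ in InfraredMean.cube j ∩ H74.IB.cell (0 : Fin j → ℝ) r, infra d p hp (embed ι κ) ^ m
        ≤ ∫ κ in InfraredMean.cube j ∩ H74.IB.cell (0 : Fin j → ℝ) r, A ^ m := by
          refine integral_mono ((InfraredMean.integrable_of_cont hcont).mono_measure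
            (Measure.restrict_mono Set.inter_subset_left le_rfl)) (integrableOn_const (hs := hf.ne)) fun κ => ?_
          exact pow_le_pow_left₀ (InfraredMean.G_nonneg p hp hs _) (hA p hp hs _) m
      _ = volume.real (InfraredMean.cube j ∩ H74.IB.cell (0 : Fin j → ℝ) r) * A ^ m := by
          rw [setIntegral_const, smul_eq_mul]
      _ ≤ (2 ^ j * r ^ j) * A ^ m := mul_le_mul_of_nonneg_right hv (by positivity)
      _ = _ := by ring

end Pool.Agent.Results.MP_54f242_pr.CoordinatePlanes
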