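import Pool.Agent.H74.IB.ConvC

/-!
# The infrared bound of percolation in the mean of order `m`, and the critical point

For bond percolation on `ℤ^d` let `G_p(k) = (1 - D̂(k)) τ̂_p(k)`. For `m ≥ 2` and `d > 2 m` the bound
`∫_{|k|_∞ ≤ r} G_p^m ≤ a r^d` for all `r`, uniformly below the critical point, holds if and only if at the critical
point the sums of the `m`-fold convolution of the two-point function over the boxes `[-n, n]^d` are `O(n^(2 m))`, and it
implies that the `m`-gon diagram is finite at the critical point (the triangle condition for `m = 3`, `d ≥ 7`).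
These bounds in the mean follow from the infrared bound, and the one of order `m` implies those of lower orders.
-/

set_option autoImplicit false

open MeasureTheory Filter Topology
open scoped ENNReal

namespace Pool.Agent.Results.MP_54f242_pr.MomentGrowth

variable {d : ℕ}

/-- the open subgraph of a configuration; `(x, i)` is the edge between `x` and `x + e_i` -/
def openGraph (ω : (Fin d → ℤ) × Fin d → Bool) : SimpleGraph (Fin d → ℤ) :=
  SimpleGraph.fromRel (fun a b : Fin d → ℤ => ∃ i : Fin d, b = a + Pi.single i (1 : ℤ) ∧ ω (a, i) = true)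

/-- bond percolation on `ℤ^d` with parameter `p` -/
noncomputable def law (d : ℕ) (p : NNReal) (hp : p ≤ 1) : Measure ((Fin d → ℤ) × Fin d → Bool) :=
  Measure.infinitePi (fun _ : (Fin d → ℤ) × Fin d => (PMF.bernoulli p hp).toMeasure)

/-- the probability that `0` and `x` are connected, in `[0, ∞]` -/
noncomputable def conn (d : ℕ) (p : NNReal) (hp : p ≤ 1) (x : Fin d → ℤ) : ℝ≥0∞ :=
  law d p hp {ω | (openGraph ω).Reachable 0 x}

/-- the two-point function `τ_p(x)` -/
noncomputable def tau (d : ℕ) (p : NNReal) (hp : p ≤ 1) (x : Fin d → ℤ) : ℝ := (conn d p hp x).toReal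

/-- the `m`-fold convolution of the two-point function, with values in `[0, ∞]` -/
noncomputable def power (d : ℕ) (p : NNReal) (hp : p ≤ 1) : ℕ → (Fin d → ℤ) → ℝ≥0∞
  | 0, x => if x = 0 then 1 else 0
  | m + 1, x => ∑' y : Fin d → ℤ, conn d p hp y * power d p hp m (x - y)

/-- `(1 - D̂(k)) τ̂_p(k)` -/
noncomputable def infra (d : ℕ) (p : NNReal) (hp : p ≤ 1) (k : Fin d → ℝ) : ℝ :=
  (∑' x : Fin d → ℤ, tau d p hp x * Real.cos (∑ i : Fin d, k i * (x i : ℝ)))
    * (1 - (1 / (d : ℝ)) * ∑ i : Fin d, Real.cos (k i))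

/-- the wave vectors in `(-π, π]^d` of maximum norm at most `r` -/
def zone (d : ℕ) (r : ℝ) : Set (Fin d → ℝ) := {k | (∀ j, -Real.pi < k j ∧ k j ≤ Real.pi) ∧ ∀ j, |k j| ≤ r}

/-- the critical point: the supremum of the parameters of finite susceptibility -/
noncomputable def pc (d : ℕ) : NNReal := sSup {p | ∃ hp : p ≤ 1, Summable (tau d p hp)}

/-- the sum of the `m`-fold convolution over the box `[-n, n]^d` -/
noncomputable def boxSum (d : ℕ) (p : NNReal) (hp : p ≤ 1) (m n : ℕ) : ℝ≥0∞ :=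
  ∑ x ∈ Fintype.piFinset (fun _ : Fin d => Finset.Icc (-(n : ℤ)) (n : ℤ)), power d p hp m x

/-- the infrared bound in the mean of order `m`, uniformly in `p` -/
def MeanBound (d m : ℕ) : Prop := ∃ a : ℝ, ∀ (p : NNReal) (hp : p ≤ 1), Summable (tau d p hp) →
  ∀ r : ℝ, 0 < r → r ≤ Real.pi → ∫ k in zone d r, infra d p hp k ^ m ≤ a * r ^ d

section proofs

open Pool.Agent.H74.IB
open Pool.Agent.Results.MP_54f242_pr.InfraredMean (cube cs G G_nonneg G_cont Dhat integrable_of_cont cube_meas)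

theorem zone_eq (r : ℝ) : zone d r = cube d ∩ cell 0 r := by
  ext k
  simp only [zone, cube, cell, Set.mem_inter_iff, Set.mem_pi, Set.mem_univ, true_imp_iff, Set.mem_Ioc,
    Pi.zero_apply, sub_zero]
  rfl

theorem infra_eq (p : NNReal) (hp : p ≤ 1) (k : Fin d → ℝ) : infra d p hp k = G d p hp k := rfl

theorem power_eq (p : NNReal) (hp : p ≤ 1) : ∀ (m : ℕ) (x : Fin d → ℤ), power d p hp m x = ep d p hp m x
  | 0, _ => rfl
  | m + 1, x => by
    unfold power ep
    exact tsum_congr fun y => by rw [power_eq p hp m]; rfl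

theorem boxSum_eq (p : NNReal) (hp : p ≤ 1) (m n : ℕ) : boxSum d p hp m n =
    ∑ x ∈ Fintype.piFinset (fun _ : Fin d => Finset.Icc (-(n : ℤ)) (n : ℤ)), ep d p hp m x :=
  Finset.sum_congr rfl fun x _ => power_eq p hp m x

theorem pc_le_one (d : ℕ) : pc d ≤ 1 := sSup_Sub_le d

theorem integral_eq (p : NNReal) (hp : p ≤ 1) (hs : Summable (tau d p hp)) (m : ℕ) (r : ℝ) :
    ∫ k in zone d r, infra d p hp k ^ m =
      ∫ k in cube d ∩ cell (0 : Fin d → ℝ) r, cs (rp d p hp m) k * (1 - Dhat k) ^ m := by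
  rw [zone_eq]
  refine integral_congr_ae (Eventually.of_forall fun k => ?_)
  exact G_pow p hp hs m k

theorem boxSum_le_iff (p : NNReal) (hp : p ≤ 1) (hs : Summable (tau d p hp)) (m n : ℕ) (B : ℝ) (hB : 0 ≤ B) :
    boxSum d p hp m n ≤ ENNReal.ofReal B ↔ SA (rp d p hp m) n ≤ B := by
  rw [boxSum_eq, box_ep p hp hs, ENNReal.ofReal_le_ofReal_iff hB]

theorem vol_le (r : ℝ) (hr : 0 < r) : volume.real (cube d ∩ cell (0 : Fin d → ℝ) r) ≤ 2 ^ d * r ^ d ∧
    volume (cube d ∩ cell (0 : Fin d → ℝ) r) < ⊤ := by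
  have hcell : cell (0 : Fin d → ℝ) r = Set.Icc (fun _ => -r) (fun _ => r) := by
    ext k
    simp only [cell, Set.mem_setOf_eq, Pi.zero_apply, sub_zero, Set.mem_Icc, Pi.le_def]
    constructor
    · intro h1
      exact ⟨fun i => (abs_le.1 (h1 i)).1, fun i => (abs_le.1 (h1 i)).2⟩
    · intro h1 i
      exact abs_le.2 ⟨h1.1 i, h1.2 i⟩
  have hvol : volume.real (cell (0 : Fin d → ℝ) r) = (2 * r) ^ d := by
    rw [hcell, measureReal_def, Real.volume_Icc_pi_toReal (fun _ => by linarith)]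
    simp only [Finset.prod_const, Finset.card_univ, Fintype.card_fin]
    congr 1
    ring
  have hfin : volume (cell (0 : Fin d → ℝ) r) < ⊤ := by
    rw [hcell]
    exact isCompact_Icc.measure_lt_top
  refine ⟨?_, (measure_mono Set.inter_subset_right).trans_lt hfin⟩
  rw [← mul_pow, ← hvol]
  exact measureReal_mono Set.inter_subset_right hfin.ne

theorem pow_integrable (p : NNReal) (hp : p ≤ 1) (hs : Summable (tau d p hp)) (m : ℕ) (r : ℝ) :
    Integrable (fun k => G d p hp k ^ m) (volume.restrict (cube d ∩ cell (0 : Fin d → ℝ) r)) :=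
  (integrable_of_cont ((G_cont p hp hs).pow m)).mono_measure
    (Measure.restrict_mono Set.inter_subset_left le_rfl)

theorem lower_order (l m : ℕ) (h : l ≤ m) : MeanBound d m → MeanBound d l := by
  rintro ⟨a, ha⟩
  refine ⟨2 ^ d + a, fun p hp hs r hr0 hr => ?_⟩
  have h1 := ha p hp hs r hr0 hr
  rw [zone_eq] at h1 ⊢
  obtain ⟨hv, hf⟩ := vol_le (d := d) r hr0
  have hc : Integrable (fun _ : Fin d → ℝ => (1 : ℝ))
      (volume.restrict (cube d ∩ cell (0 : Fin d → ℝ) r)) := integrableOn_const (hs := hf.ne)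
  calc ∫ k in cube d ∩ cell (0 : Fin d → ℝ) r, infra d p hp k ^ l
      ≤ ∫ k in cube d ∩ cell (0 : Fin d → ℝ) r, (1 + G d p hp k ^ m) := by
        refine integral_mono (pow_integrable p hp hs l r) (hc.add (pow_integrable p hp hs m r)) fun k => ?_
        have hG := G_nonneg p hp hs k
        change G d p hp k ^ l ≤ 1 + G d p hp k ^ m
        rcases le_or_gt (G d p hp k) 1 with h2 | h2
        · have := pow_le_one₀ (n := l) hG h2
          have := pow_nonneg hG m
          linarith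
        · have := pow_le_pow_right₀ h2.le h
          linarith
    _ = volume.real (cube d ∩ cell (0 : Fin d → ℝ) r) + ∫ k in cube d ∩ cell (0 : Fin d → ℝ) r, G d p hp k ^ m := by
        rw [integral_add hc (pow_integrable p hp hs m r), setIntegral_const, smul_eq_mul, mul_one]
    _ ≤ 2 ^ d * r ^ d + a * r ^ d := add_le_add hv h1
    _ = _ := by ring

theorem of_infrared (m : ℕ) (h : ∃ A : ℝ, ∀ (p : NNReal) (hp : p ≤ 1), Summable (tau d p hp) →
    ∀ k : Fin d → ℝ, infra d p hp k ≤ A) : MeanBound d m := by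
  obtain ⟨A, hA⟩ := h
  refine ⟨A ^ m * 2 ^ d, fun p hp hs r hr0 hr => ?_⟩
  rw [zone_eq]
  obtain ⟨hv, hf⟩ := vol_le (d := d) r hr0
  have hA0 : 0 ≤ A := (G_nonneg p hp hs 0).trans (hA p hp hs 0)
  have hc : Integrable (fun _ : Fin d → ℝ => A ^ m)
      (volume.restrict (cube d ∩ cell (0 : Fin d → ℝ) r)) := integrableOn_const (hs := hf.ne)
  calc ∫ k in cube d ∩ cell (0 : Fin d → ℝ) r, infra d p hp k ^ m
      ≤ ∫ k in cube d ∩ cell (0 : Fin d → ℝ) r, A ^ m := by
        refine integral_mono (pow_integrable p hp hs m r) hc fun k => ?_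
        exact pow_le_pow_left₀ (G_nonneg p hp hs k) (hA p hp hs k) m
    _ = volume.real (cube d ∩ cell (0 : Fin d → ℝ) r) * A ^ m := by rw [setIntegral_const, smul_eq_mul]
    _ ≤ (2 ^ d * r ^ d) * A ^ m := mul_le_mul_of_nonneg_right hv (by positivity)
    _ = _ := by ring

theorem power_three (p : NNReal) (hp : p ≤ 1) : power d p hp 3 0 =
    ∑' x : Fin d → ℤ, ∑' y : Fin d → ℤ, conn d p hp x * conn d p hp (y - x) * conn d p hp y := by
  have h1 : ∀ v : Fin d → ℤ, power d p hp 1 v = conn d p hp v := by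
    intro v
    unfold power
    rw [tsum_eq_single v]
    · simp [power]
    · intro y hy
      have : v - y ≠ 0 := fun h => hy (sub_eq_zero.1 h).symm
      simp [power, this]
  have h2 : power d p hp 3 0 = ∑' x : Fin d → ℤ, conn d p hp x *
      ∑' z : Fin d → ℤ, conn d p hp z * conn d p hp (0 - x - z) := by
    rw [power]
    refine tsum_congr fun x => ?_
    rw [power]
    simp_rw [h1]
  rw [h2]
  refine tsum_congr fun x => ?_
  rw [← ENNReal.tsum_mul_left, ← (Equiv.subRight x).tsum_eq]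
  refine tsum_congr fun y => ?_
  have h3 : conn d p hp (0 - x - (Equiv.subRight x) y) = conn d p hp y := by
    have h4 : 0 - x - (Equiv.subRight x) y = -y := by
      rw [Equiv.subRight_apply]
      abel
    rw [h4]
    exact et_neg p hp y
  rw [h3, Equiv.subRight_apply, mul_assoc]

end proofs

/-- **The infrared bound in the mean of order `m`, and the critical point.** -/
theorem result (d m : ℕ) (hd : 1 ≤ d) (hm : 2 ≤ m) : ∃ hc : pc d ≤ 1,
    -- at each parameter
    (∃ K : ℝ, 0 < K ∧ ∀ (p : NNReal) (hp : p ≤ 1), Summable (tau d p hp) →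
      (∀ b : ℝ, 0 ≤ b → (∀ n : ℕ, 1 ≤ n → boxSum d p hp m n ≤ ENNReal.ofReal (b * (n : ℝ) ^ (2 * m))) →
        ∀ r : ℝ, 0 < r → r ≤ Real.pi → ∫ k in zone d r, infra d p hp k ^ m ≤ K * b * r ^ d) ∧
      (2 * m < d → ∀ a : ℝ,
        (∀ r : ℝ, 0 < r → r ≤ Real.pi → ∫ k in zone d r, infra d p hp k ^ m ≤ a * r ^ d) →
          (∀ n : ℕ, 1 ≤ n → boxSum d p hp m n ≤ ENNReal.ofReal (K * a * (n : ℝ) ^ (2 * m))) ∧
          power d p hp m 0 ≤ ENNReal.ofReal (K * a))) ∧
    -- the infrared bound in the mean of order `m` as a property of the critical point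
    ((∃ b : ℝ, ∀ n : ℕ, 1 ≤ n → boxSum d (pc d) hc m n ≤ ENNReal.ofReal (b * (n : ℝ) ^ (2 * m))) →
      MeanBound d m) ∧
    (2 * m < d →
      (MeanBound d m ↔
        ∃ b : ℝ, ∀ n : ℕ, 1 ≤ n → boxSum d (pc d) hc m n ≤ ENNReal.ofReal (b * (n : ℝ) ^ (2 * m))) ∧
      (MeanBound d m → power d (pc d) hc m 0 < ⊤)) ∧
    -- the triangle condition
    (m = 3 → 7 ≤ d → MeanBound d m →
      ∑' x : Fin d → ℤ, ∑' y : Fin d → ℤ,
        conn d (pc d) hc x * conn d (pc d) hc (y - x) * conn d (pc d) hc y < ⊤) ∧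
    -- comparison of the orders, and with the infrared bound
    (∀ l : ℕ, l ≤ m → MeanBound d m → MeanBound d l) ∧
    ((∃ A : ℝ, ∀ (p : NNReal) (hp : p ≤ 1), Summable (tau d p hp) → ∀ k : Fin d → ℝ, infra d p hp k ≤ A) →
      MeanBound d m) := by
  have hpi := Real.pi_pos
  have hd0 : (0 : ℝ) < d := by exact_mod_cast hd
  have hZ : 0 ≤ H74.IB.Z (d - 2 * m) := tsum_nonneg fun u => by positivity
  set K1 : ℝ := 2 * 2 ^ m * (4 * Real.pi * d) ^ d with hK1
  set K2 : ℝ := 2 * (2 * d * Real.pi ^ 2) ^ m * 2 ^ m * H74.IB.Z (d - 2 * m) with hK2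
  set K3 : ℝ := 2 * (2 * d * Real.pi ^ 2) ^ m * Real.pi ^ (d - 2 * m) / (2 * Real.pi) ^ d with hK3
  have h1 : 0 < K1 := by positivity
  have h2 : 0 ≤ K2 := by positivity
  have h3 : 0 < K3 := by positivity
  have main : ∀ (p : NNReal) (hp : p ≤ 1), Summable (tau d p hp) →
      (∀ b : ℝ, 0 ≤ b → (∀ n : ℕ, 1 ≤ n → boxSum d p hp m n ≤ ENNReal.ofReal (b * (n : ℝ) ^ (2 * m))) →
        ∀ r : ℝ, 0 < r → r ≤ Real.pi → ∫ k in zone d r, infra d p hp k ^ m ≤ (K1 + K2 + K3) * b * r ^ d) ∧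
      (2 * m < d → ∀ a : ℝ,
        (∀ r : ℝ, 0 < r → r ≤ Real.pi → ∫ k in zone d r, infra d p hp k ^ m ≤ a * r ^ d) →
          (∀ n : ℕ, 1 ≤ n → boxSum d p hp m n ≤ ENNReal.ofReal ((K1 + K2 + K3) * a * (n : ℝ) ^ (2 * m))) ∧
          power d p hp m 0 ≤ ENNReal.ofReal ((K1 + K2 + K3) * a)) := by
    intro p hp hs
    have hg : H74.IB.Good (H74.IB.rp d p hp m) := H74.IB.good_rp p hp hs m
    refine ⟨?_, ?_⟩
    · intro b hb0 hb r hr0 hr
      rw [integral_eq p hp hs]
      have hb' : ∀ n : ℕ, 1 ≤ n → H74.IB.SA (H74.IB.rp d p hp m) n ≤ b * (n : ℝ) ^ (2 * m) := fun n hn =>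
        (boxSum_le_iff p hp hs m n _ (by positivity)).1 (hb n hn)
      refine (H74.IB.avg_leA hd hg m b hb' r hr0).trans ?_
      refine mul_le_mul_of_nonneg_right (mul_le_mul_of_nonneg_right ?_ hb0) (by positivity)
      linarith
    · intro hlt a ha
      have ha' : ∀ r : ℝ, 0 < r → r ≤ Real.pi →
          ∫ k in InfraredMean.cube d ∩ H74.IB.cell (0 : Fin d → ℝ) r,
            InfraredMean.cs (H74.IB.rp d p hp m) k * (1 - InfraredMean.Dhat k) ^ m ≤ a * r ^ d := by
        intro r hr0 hr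
        rw [← integral_eq p hp hs]
        exact ha r hr0 hr
      have ha0 : 0 ≤ a := by
        have h7 := ha' Real.pi hpi le_rfl
        have h8 : 0 ≤ ∫ k in InfraredMean.cube d ∩ H74.IB.cell (0 : Fin d → ℝ) Real.pi,
            InfraredMean.cs (H74.IB.rp d p hp m) k * (1 - InfraredMean.Dhat k) ^ m :=
          integral_nonneg fun k => mul_nonneg (hg.ft k) (pow_nonneg (H74.IB.one_sub_Dhat_nonneg k) m)
        exact nonneg_of_mul_nonneg_left (h8.trans h7) (by positivity)
      have he : 1 ≤ d - 2 * m := by omega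
      have hde : d = 2 * m + (d - 2 * m) := by omega
      refine ⟨fun n hn => ?_, ?_⟩
      · rw [boxSum_le_iff p hp hs m n _ (by positivity)]
        refine (H74.IB.growthA hd hg m (d - 2 * m) he hde a ha' n hn).trans ?_
        refine mul_le_mul_of_nonneg_right (mul_le_mul_of_nonneg_right ?_ ha0) (by positivity)
        linarith
      · have h4 := H74.IB.massA hd hg m (d - 2 * m) he hde a ha0 ha' Real.pi hpi
        rw [Set.inter_eq_left.2 (H74.IB.cube_sub_cell Real.pi le_rfl), H74.IB.int_csA hg] at h4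
        have h5 : H74.IB.rp d p hp m 0 ≤ K3 * a := by
          rw [hK3, div_mul_eq_mul_div, le_div_iff₀ (by positivity)]
          linarith
        rw [power_eq, ← ENNReal.ofReal_toReal (H74.IB.ep_ne_top p hp hs m 0)]
        refine ENNReal.ofReal_le_ofReal (h5.trans ?_)
        refine mul_le_mul_of_nonneg_right ?_ ha0
        linarith
  have hK : 0 < K1 + K2 + K3 := by positivity
  have back : (∃ b : ℝ, ∀ n : ℕ, 1 ≤ n →
      boxSum d (pc d) (pc_le_one d) m n ≤ ENNReal.ofReal (b * (n : ℝ) ^ (2 * m))) → MeanBound d m := by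
    rintro ⟨b, hb⟩
    refine ⟨(K1 + K2 + K3) * max b 0, fun p hp hs => (main p hp hs).1 _ (le_max_right _ _) fun n hn => ?_⟩
    have h4 := hb n hn
    rw [boxSum_eq] at h4 ⊢
    refine ((H74.IB.ep_at_pc m n _).2 (h4.trans ?_)) p hp hs
    refine ENNReal.ofReal_le_ofReal (mul_le_mul_of_nonneg_right (le_max_left _ _) (by positivity))
  have forth : 2 * m < d → MeanBound d m → ∃ b : ℝ, ∀ n : ℕ, 1 ≤ n →
      boxSum d (pc d) (pc_le_one d) m n ≤ ENNReal.ofReal (b * (n : ℝ) ^ (2 * m)) := by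
    rintro hlt ⟨a, ha⟩
    refine ⟨(K1 + K2 + K3) * a, fun n hn => ?_⟩
    rw [boxSum_eq]
    refine (H74.IB.ep_at_pc m n _).1 fun p hp hs => ?_
    rw [← boxSum_eq]
    exact ((main p hp hs).2 hlt a (ha p hp hs)).1 n hn
  have gon : 2 * m < d → MeanBound d m → power d (pc d) (pc_le_one d) m 0 < ⊤ := by
    rintro hlt ⟨a, ha⟩
    rw [power_eq]
    refine lt_of_le_of_lt (H74.IB.ep_zero_at_pc m (ENNReal.ofReal ((K1 + K2 + K3) * a)) fun p hp hs => ?_)
      ENNReal.ofReal_lt_top
    rw [← power_eq]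
    exact ((main p hp hs).2 hlt a (ha p hp hs)).2
  refine ⟨pc_le_one d, ⟨K1 + K2 + K3, hK, main⟩, back, fun hlt => ⟨⟨forth hlt, back⟩, gon hlt⟩, ?_,
    fun l hl => lower_order l m hl, of_infrared m⟩
  rintro rfl h7 hM
  rw [← power_three]
  exact gon (by omega) hM

end Pool.Agent.Results.MP_54f242_pr.MomentGrowth
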