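import Pool.Agent.H74.IB.Critical

/-!
# The infrared bound of percolation on average, and the growth of the clusters

For bond percolation on `ℤ^d` at a parameter `p` of finite susceptibility let `E(n)` be the mean number of
the points of the box `[-n, n]^d` in the cluster of the origin. At every `p` and every scale `n`, `E(n)` is
comparable with the largest average of the transform `τ̂_p` over the cubes of wave vectors of radius `1 / n`.
For `d ≥ 3` the infrared bound on average over the cubes `|k|_∞ ≤ r` of all radii `r`, uniformly below the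
critical point, is equivalent with `E(n) = O(n²)` at the critical point. At all these parameters, the
critical point included, `E(2 n) ≤ K E(n)`.
-/

set_option autoImplicit false

open MeasureTheory Filter Topology

namespace Pool.Agent.Results.MP_54f242_pr.QuadraticGrowth

variable {d : ℕ}

/-- the open subgraph of a configuration; `(x, i)` is the edge between `x` and `x + e_i` -/
def openGraph (ω : (Fin d → ℤ) × Fin d → Bool) : SimpleGraph (Fin d → ℤ) :=
  SimpleGraph.fromRel (fun a b : Fin d → ℤ => ∃ i : Fin d, b = a + Pi.single i (1 : ℤ) ∧ ω (a, i) = true)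

/-- bond percolation on `ℤ^d` with parameter `p` -/
noncomputable def law (d : ℕ) (p : NNReal) (hp : p ≤ 1) : Measure ((Fin d → ℤ) × Fin d → Bool) :=
  Measure.infinitePi (fun _ : (Fin d → ℤ) × Fin d => (PMF.bernoulli p hp).toMeasure)

/-- the two-point function `τ_p(x)` -/
noncomputable def tau (d : ℕ) (p : NNReal) (hp : p ≤ 1) (x : Fin d → ℤ) : ℝ :=
  (law d p hp {ω | (openGraph ω).Reachable 0 x}).toReal

/-- the transform `τ̂_p(k)` -/
noncomputable def tauHat (d : ℕ) (p : NNReal) (hp : p ≤ 1) (k : Fin d → ℝ) : ℝ :=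
  ∑' x : Fin d → ℤ, tau d p hp x * Real.cos (∑ i : Fin d, k i * (x i : ℝ))

/-- `(1 - D̂(k)) τ̂_p(k)` -/
noncomputable def infra (d : ℕ) (p : NNReal) (hp : p ≤ 1) (k : Fin d → ℝ) : ℝ :=
  tauHat d p hp k * (1 - (1 / (d : ℝ)) * ∑ i : Fin d, Real.cos (k i))

/-- the wave vectors in `(-π, π]^d` at distance at most `r` from `k₀` in the maximum norm -/
def zone (k₀ : Fin d → ℝ) (r : ℝ) : Set (Fin d → ℝ) :=
  {k | (∀ j, -Real.pi < k j ∧ k j ≤ Real.pi) ∧ ∀ j, |k j - k₀ j| ≤ r}

open Classical in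
/-- the mean number of the points of `[-n, n]^d` in the cluster of the origin -/
noncomputable def meanPoints (d : ℕ) (p : NNReal) (hp : p ≤ 1) (n : ℕ) : ℝ :=
  ∫ ω, (((Fintype.piFinset (fun _ : Fin d => Finset.Icc (-(n : ℤ)) (n : ℤ))).filter
    (fun x => (openGraph ω).Reachable 0 x)).card : ℝ) ∂(law d p hp)

/-- the critical point: the supremum of the parameters of finite susceptibility -/
noncomputable def pc (d : ℕ) : NNReal := sSup {p | ∃ hp : p ≤ 1, Summable (tau d p hp)}

section proofs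

open Pool.Agent.H74.IB
open Pool.Agent.Results.MP_54f242_pr.InfraredMean (opn cube cs G meas_reach tau_nonneg tau_le_one)

theorem meanPoints_eq (p : NNReal) (hp : p ≤ 1) (n : ℕ) : meanPoints d p hp n = S d p hp n := by
  classical
  unfold meanPoints S
  have hprob : IsProbabilityMeasure (law d p hp) := by unfold law; infer_instance
  have h0 : ∀ ω : (Fin d → ℤ) × Fin d → Bool,
      (((Fintype.piFinset (fun _ : Fin d => Finset.Icc (-(n : ℤ)) (n : ℤ))).filter
        (fun x => (openGraph ω).Reachable 0 x)).card : ℝ) =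
      ∑ x ∈ Fintype.piFinset (fun _ : Fin d => Finset.Icc (-(n : ℤ)) (n : ℤ)),
        Set.indicator {ω | (opn (d := d) ω).Reachable 0 x} (fun _ => (1 : ℝ)) ω := by
    intro ω
    rw [Finset.card_filter]
    push_cast
    refine Finset.sum_congr rfl fun x _ => ?_
    rw [Set.indicator_apply]
    rfl
  simp_rw [h0]
  rw [integral_finsetSum _ (fun x _ => (integrable_const _).indicator (meas_reach 0 x))]
  refine Finset.sum_congr rfl fun x _ => ?_
  rw [integral_indicator_const _ (meas_reach _ _), smul_eq_mul, mul_one]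
  rfl

theorem zone_eq (k₀ : Fin d → ℝ) (r : ℝ) : zone k₀ r = cube d ∩ cell k₀ r := by
  ext k
  simp only [zone, cube, cell, Set.mem_inter_iff, Set.mem_pi, Set.mem_univ, true_imp_iff, Set.mem_Ioc]
  rfl

theorem S_trivial (hd : d ≤ 2) (p : NNReal) (hp : p ≤ 1) (n : ℕ) (hn : 1 ≤ n) :
    S d p hp n ≤ 9 * (n : ℝ) ^ 2 := by
  have hn1 : (1 : ℝ) ≤ n := by exact_mod_cast hn
  have h1 : S d p hp n ≤ (2 * (n : ℝ) + 1) ^ d := by
    unfold S
    refine (Finset.sum_le_sum (g := fun _ => (1 : ℝ)) fun x _ => tau_le_one p hp x).trans (le_of_eq ?_)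
    rw [Finset.sum_const, nsmul_eq_mul, mul_one, Fintype.card_piFinset]
    simp only [Int.card_Icc, Finset.prod_const, Finset.card_univ, Fintype.card_fin]
    have h2 : ((n : ℤ) + 1 - -(n : ℤ)).toNat = 2 * n + 1 := by omega
    rw [h2]
    push_cast
    rfl
  refine h1.trans ?_
  have h3 : (2 * (n : ℝ) + 1) ^ d ≤ (2 * (n : ℝ) + 1) ^ 2 := pow_le_pow_right₀ (by linarith) hd
  nlinarith

theorem pc_eq (d : ℕ) : pc d = sSup (Sub d) := rfl

theorem pc_le_one (d : ℕ) : pc d ≤ 1 := sSup_Sub_le d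

/-- growth bounds below the critical point are growth bounds at the critical point -/
theorem at_pc (n : ℕ) (B : ℝ) :
    (∀ (p : NNReal) (hp : p ≤ 1), Summable (tau d p hp) → meanPoints d p hp n ≤ B) ↔
      meanPoints d (pc d) (pc_le_one d) n ≤ B := by
  constructor
  · intro h
    rw [meanPoints_eq]
    refine critical_of_sub n B fun p hp hs => ?_
    rw [← meanPoints_eq]
    exact h p hp hs
  · intro h p hp hs
    rw [meanPoints_eq] at h ⊢
    exact (S_mono_param p (pc d) hp (pc_le_one d) (le_csSup (Sub_bdd d) ⟨hp, hs⟩) n).trans h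

/-- doubling passes to the critical point -/
theorem doubling_at_pc (n m : ℕ) (K : ℝ)
    (h : ∀ (p : NNReal) (hp : p ≤ 1), Summable (tau d p hp) → meanPoints d p hp m ≤ K * meanPoints d p hp n) :
    meanPoints d (pc d) (pc_le_one d) m ≤ K * meanPoints d (pc d) (pc_le_one d) n := by
  obtain ⟨q, h1, h2, h3, h4⟩ := exists_seq d
  have h5 : ∀ j : ℕ, Tendsto (fun i => S d (q i) (h2 i).choose j) atTop
      (𝓝 (S d (sSup (Sub d)) (sSup_Sub_le d) j)) := by
    intro j
    unfold S
    exact tendsto_finset_sum _ fun x _ => tau_tendsto _ _ q _ h1 h3 h4 x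
  rw [meanPoints_eq, meanPoints_eq]
  refine le_of_tendsto_of_tendsto' (h5 m) ((h5 n).const_mul K) fun i => ?_
  have := h (q i) (h2 i).choose (h2 i).choose_spec
  rwa [meanPoints_eq, meanPoints_eq] at this

end proofs

/-- **The infrared bound on average and quadratic growth.** -/
theorem result (d : ℕ) (hd : 1 ≤ d) : ∃ hc : pc d ≤ 1,
    (∃ K : ℝ, 0 < K ∧ (∀ (p : NNReal) (hp : p ≤ 1), Summable (tau d p hp) →
      -- the growth at the scale `n` against the averages of the transform over the cubes of radius `1 / n`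
      (∀ n : ℕ, 1 ≤ n → ∀ k₀ : Fin d → ℝ,
        (n : ℝ) ^ d * ∫ k in zone k₀ (1 / n), tauHat d p hp k ≤ K * meanPoints d p hp n) ∧
      (∀ n : ℕ, 1 ≤ n → ∀ M : ℝ,
        (∀ k₀ : Fin d → ℝ, (n : ℝ) ^ d * ∫ k in zone k₀ (1 / n), tauHat d p hp k ≤ M) →
          meanPoints d p hp n ≤ K * M) ∧
      -- quadratic growth gives the infrared bound on average over the cubes around the origin
      (∀ b : ℝ, (∀ n : ℕ, 1 ≤ n → meanPoints d p hp n ≤ b * (n : ℝ) ^ 2) →
        ∀ r : ℝ, 0 < r → r ≤ Real.pi → ∫ k in zone 0 r, infra d p hp k ≤ K * b * r ^ d) ∧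
      -- for `d ≥ 3` the infrared bound on average gives quadratic growth
      (3 ≤ d → ∀ a : ℝ, (∀ r : ℝ, 0 < r → r ≤ Real.pi → ∫ k in zone 0 r, infra d p hp k ≤ a * r ^ d) →
        ∀ n : ℕ, 1 ≤ n → meanPoints d p hp n ≤ K * a * (n : ℝ) ^ 2) ∧
      (3 ≤ d → ∀ A : ℝ, (∀ k : Fin d → ℝ, infra d p hp k ≤ A) →
        ∀ n : ℕ, 1 ≤ n → meanPoints d p hp n ≤ K * A * (n : ℝ) ^ 2) ∧
      -- for `d ≤ 2` the infrared bound holds on average
      (d ≤ 2 → ∀ r : ℝ, 0 < r → r ≤ Real.pi → ∫ k in zone 0 r, infra d p hp k ≤ K * r ^ d) ∧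
      -- doubling
      ∀ n : ℕ, 1 ≤ n → meanPoints d p hp (2 * n) ≤ K ^ 2 * 2 ^ d * meanPoints d p hp n) ∧
      -- doubling at the critical point
      ∀ n : ℕ, 1 ≤ n → meanPoints d (pc d) hc (2 * n) ≤ K ^ 2 * 2 ^ d * meanPoints d (pc d) hc n) ∧
    -- uniformly in `p`
    (3 ≤ d → ((∃ a : ℝ, ∀ (p : NNReal) (hp : p ≤ 1), Summable (tau d p hp) →
        ∀ r : ℝ, 0 < r → r ≤ Real.pi → ∫ k in zone 0 r, infra d p hp k ≤ a * r ^ d) ↔
      ∃ b : ℝ, ∀ n : ℕ, 1 ≤ n → meanPoints d (pc d) hc n ≤ b * (n : ℝ) ^ 2)) ∧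
    ∀ b : ℝ, (∀ (p : NNReal) (hp : p ≤ 1), Summable (tau d p hp) →
        ∀ n : ℕ, 1 ≤ n → meanPoints d p hp n ≤ b * (n : ℝ) ^ 2) ↔
      ∀ n : ℕ, 1 ≤ n → meanPoints d (pc d) hc n ≤ b * (n : ℝ) ^ 2 := by
  have hpi := Real.pi_pos
  have hd0 : (0 : ℝ) < d := by exact_mod_cast hd
  have hZ0 : 0 ≤ H74.IB.Z' := tsum_nonneg fun u => by positivity
  have hZd : 0 ≤ H74.IB.Z d := tsum_nonneg fun u => by positivity
  set K1 : ℝ := 8 * (4 * Real.pi * d) ^ d with hK1
  set K2 : ℝ := (2 * (3 * Real.pi ^ 2 * H74.IB.Z')) ^ d with hK2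
  set K3 : ℝ := 4 * (4 * Real.pi * d) ^ d with hK3
  set K4 : ℝ := 4 * d * H74.IB.Z d with hK4
  set K5 : ℝ := 4 * d * (2 * Real.pi) ^ d with hK5
  have h1 : 0 < K1 := by positivity
  have h2 : 0 ≤ K2 := by positivity
  have h3 : 0 < K3 := by positivity
  have h4 : 0 ≤ K4 := by positivity
  have h5 : 0 < K5 := by positivity
  have main : ∃ K : ℝ, 0 < K ∧ ∀ (p : NNReal) (hp : p ≤ 1), Summable (tau d p hp) →
      (∀ n : ℕ, 1 ≤ n → ∀ k₀ : Fin d → ℝ,
        (n : ℝ) ^ d * ∫ k in zone k₀ (1 / n), tauHat d p hp k ≤ K * meanPoints d p hp n) ∧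
      (∀ n : ℕ, 1 ≤ n → ∀ M : ℝ,
        (∀ k₀ : Fin d → ℝ, (n : ℝ) ^ d * ∫ k in zone k₀ (1 / n), tauHat d p hp k ≤ M) →
          meanPoints d p hp n ≤ K * M) ∧
      (∀ b : ℝ, (∀ n : ℕ, 1 ≤ n → meanPoints d p hp n ≤ b * (n : ℝ) ^ 2) →
        ∀ r : ℝ, 0 < r → r ≤ Real.pi → ∫ k in zone 0 r, infra d p hp k ≤ K * b * r ^ d) ∧
      (3 ≤ d → ∀ a : ℝ, (∀ r : ℝ, 0 < r → r ≤ Real.pi → ∫ k in zone 0 r, infra d p hp k ≤ a * r ^ d) →
        ∀ n : ℕ, 1 ≤ n → meanPoints d p hp n ≤ K * a * (n : ℝ) ^ 2) ∧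
      (3 ≤ d → ∀ A : ℝ, (∀ k : Fin d → ℝ, infra d p hp k ≤ A) →
        ∀ n : ℕ, 1 ≤ n → meanPoints d p hp n ≤ K * A * (n : ℝ) ^ 2) ∧
      (d ≤ 2 → ∀ r : ℝ, 0 < r → r ≤ Real.pi → ∫ k in zone 0 r, infra d p hp k ≤ K * r ^ d) := by
    refine ⟨K1 + K2 + K3 * 9 + K4 + K5, by positivity, fun p hp hs => ⟨?_, ?_, ?_, ?_, ?_, ?_⟩⟩
    · intro n hn k₀
      rw [zone_eq, meanPoints_eq]
      refine (H74.IB.mass_le' hd p hp hs n hn k₀).trans ?_
      have hS := H74.IB.S_ge_one (d := d) p hp n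
      refine mul_le_mul_of_nonneg_right ?_ (by linarith)
      linarith
    · intro n hn M hM
      rw [meanPoints_eq]
      have hn0 : (0 : ℝ) < (n : ℝ) ^ d := by
        have : (0 : ℝ) < n := by exact_mod_cast hn
        positivity
      have hM' : ∀ k₀ : Fin d → ℝ, ∫ k in InfraredMean.cube d ∩ H74.IB.cell k₀ (1 / n),
          InfraredMean.cs (InfraredMean.tau d p hp) k ≤ M / (n : ℝ) ^ d := by
        intro k₀
        have := hM k₀
        rw [zone_eq] at this
        rw [le_div_iff₀ hn0, mul_comm]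
        exact this
      have h6 := H74.IB.growth_of_mass p hp hs n hn _ hM'
      rw [mul_div_cancel₀ _ hn0.ne'] at h6
      have hM0 : 0 ≤ M := by
        have h7 := hM 0
        rw [zone_eq] at h7
        refine le_trans ?_ h7
        exact mul_nonneg hn0.le (integral_nonneg fun k => H74.IB.cs_nonneg p hp hs k)
      refine h6.trans (mul_le_mul_of_nonneg_right ?_ hM0)
      linarith
    · intro b hb r hr _
      rw [zone_eq]
      have hb' : ∀ n : ℕ, 1 ≤ n → H74.IB.S d p hp n ≤ b * (n : ℝ) ^ 2 := by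
        intro n hn
        rw [← meanPoints_eq]
        exact hb n hn
      have hb1 : 1 ≤ b := by
        have := (H74.IB.S_ge_one (d := d) p hp 1).trans (hb' 1 le_rfl)
        simpa using this
      refine (H74.IB.avg_le hd p hp hs b hb' r hr).trans ?_
      refine mul_le_mul_of_nonneg_right (mul_le_mul_of_nonneg_right ?_ (by linarith)) (by positivity)
      linarith
    · intro hd3 a ha n hn
      rw [meanPoints_eq]
      have ha' : ∀ r : ℝ, 0 < r → r ≤ Real.pi →
          ∫ k in InfraredMean.cube d ∩ H74.IB.cell (0 : Fin d → ℝ) r, InfraredMean.G d p hp k ≤ a * r ^ d := by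
        intro r hr0 hr
        have := ha r hr0 hr
        rw [zone_eq] at this
        exact this
      have ha0 : 0 ≤ a := by
        have h7 := ha' Real.pi hpi le_rfl
        have h8 : 0 ≤ ∫ k in InfraredMean.cube d ∩ H74.IB.cell (0 : Fin d → ℝ) Real.pi,
            InfraredMean.G d p hp k :=
          integral_nonneg fun k => InfraredMean.G_nonneg p hp hs k
        exact nonneg_of_mul_nonneg_left (h8.trans h7) (by positivity)
      refine (H74.IB.growth_of_avg hd3 p hp hs a ha' n hn).trans ?_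
      refine mul_le_mul_of_nonneg_right ?_ (by positivity)
      calc 4 * d * (a * H74.IB.Z d) = K4 * a := by rw [hK4]; ring
        _ ≤ _ := mul_le_mul_of_nonneg_right (by linarith) ha0
    · intro hd3 A hA n hn
      rw [meanPoints_eq]
      have hA0 : 0 ≤ A := (InfraredMean.G_nonneg p hp hs 0).trans (hA 0)
      refine (H74.IB.growth_of_bound hd3 p hp hs A hA n hn).trans ?_
      refine mul_le_mul_of_nonneg_right ?_ (by positivity)
      calc 4 * d * ((2 * Real.pi) ^ d * A) = K5 * A := by rw [hK5]; ring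
        _ ≤ _ := mul_le_mul_of_nonneg_right (by linarith) hA0
    · intro hd2 r hr _
      rw [zone_eq]
      refine (H74.IB.avg_le hd p hp hs 9 (fun n hn => S_trivial hd2 p hp n hn) r hr).trans ?_
      refine mul_le_mul_of_nonneg_right ?_ (by positivity)
      linarith
  obtain ⟨K, hK, h⟩ := main
  have hdouble : ∀ (p : NNReal) (hp : p ≤ 1), Summable (tau d p hp) → ∀ n : ℕ, 1 ≤ n →
      meanPoints d p hp (2 * n) ≤ K ^ 2 * 2 ^ d * meanPoints d p hp n := by
    intro p hp hs n hn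
    have hn0 : (0 : ℝ) < n := by exact_mod_cast hn
    have hcs := InfraredMean.cs_cont _ (H74.IB.tau_abs_summable p hp hs)
    have hint : Integrable (InfraredMean.cs (InfraredMean.tau d p hp)) (volume.restrict (InfraredMean.cube d)) :=
      InfraredMean.integrable_of_cont hcs
    have key : ∀ k₀ : Fin d → ℝ, (((2 * n : ℕ) : ℝ)) ^ d * ∫ k in zone k₀ (1 / ((2 * n : ℕ) : ℝ)), tauHat d p hp k ≤
        2 ^ d * (K * meanPoints d p hp n) := by
      intro k₀
      have h1 := (h p hp hs).1 n hn k₀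
      have h2 : ∫ k in zone k₀ (1 / ((2 * n : ℕ) : ℝ)), tauHat d p hp k ≤
          ∫ k in zone k₀ (1 / (n : ℝ)), tauHat d p hp k := by
        rw [zone_eq, zone_eq]
        refine setIntegral_mono_set (hint.mono_measure (Measure.restrict_mono Set.inter_subset_left le_rfl))
          (Eventually.of_forall fun k => H74.IB.cs_nonneg p hp hs k) (Eventually.of_forall fun k hk => ?_)
        refine ⟨hk.1, fun j => (hk.2 j).trans ?_⟩
        push_cast
        exact one_div_le_one_div_of_le hn0 (by linarith)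
      have h3 : (((2 * n : ℕ) : ℝ)) ^ d = 2 ^ d * (n : ℝ) ^ d := by push_cast; rw [mul_pow]
      rw [h3, mul_assoc]
      refine mul_le_mul_of_nonneg_left ?_ (by positivity)
      refine le_trans ?_ h1
      exact mul_le_mul_of_nonneg_left h2 (by positivity)
    have h4 := (h p hp hs).2.1 (2 * n) (by omega) _ key
    refine h4.trans (le_of_eq ?_)
    ring
  refine ⟨pc_le_one d, ⟨K, hK, fun p hp hs => ?_, fun n hn => ?_⟩, fun hd3 => ?_, fun b => ?_⟩
  · obtain ⟨a1, a2, a3, a4, a5, a6⟩ := h p hp hs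
    exact ⟨a1, a2, a3, a4, a5, a6, hdouble p hp hs⟩
  · exact doubling_at_pc n (2 * n) _ fun p hp hs => hdouble p hp hs n hn
  · constructor
    · rintro ⟨a, ha⟩
      exact ⟨K * a, fun n hn => (at_pc n _).1 fun p hp hs => (h p hp hs).2.2.2.1 hd3 a (ha p hp hs) n hn⟩
    · rintro ⟨b, hb⟩
      exact ⟨K * b, fun p hp hs => (h p hp hs).2.2.1 b fun n hn => (at_pc n _).2 (hb n hn) p hp hs⟩
  · constructor
    · intro h1 n hn
      exact (at_pc n _).1 fun p hp hs => h1 p hp hs n hn
    · intro h1 p hp hs n hn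
      exact (at_pc n _).2 (h1 n hn) p hp hs

end Pool.Agent.Results.MP_54f242_pr.QuadraticGrowth
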